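import Pool.Agent.Lib_helper23.LV.Defs

set_option autoImplicit false

open MeasureTheory Set Filter Topology
open scoped RealInnerProductSpace Pointwise

namespace Pool.Agent.LV

section
variable {X : Type} [NormedAddCommGroup X] [NormedSpace ℝ X]

omit [NormedAddCommGroup X] [NormedSpace ℝ X] in
theorem B1_slice_eq (K : Set (X × ℝ)) (s : ℝ) :
    sl K s = Prod.fst '' (K ∩ (Prod.snd ⁻¹' {s})) := by
  ext p
  constructor
  · intro h
    exact ⟨(p, s), ⟨h, rfl⟩, rfl⟩
  · rintro ⟨⟨a, b⟩, ⟨h1, h2⟩, h3⟩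
    have h2' : b = s := h2
    have h3' : a = p := h3
    subst h2' h3'
    exact h1

theorem B1_compact (K : Set (X × ℝ)) (hK : IsCompact K) (s : ℝ) : IsCompact (sl K s) := by
  rw [B1_slice_eq]
  exact (hK.inter_right (isClosed_singleton.preimage continuous_snd)).image continuous_fst

/-- the convex combination of slices -/
theorem B1_comb (K : Set (X × ℝ)) (hc : Convex ℝ K) (s s' θ : ℝ) (hθ : θ ∈ Icc (0 : ℝ) 1)
    (q : X) (hq : q ∈ sl K s') :
    (θ • q) +ᵥ ((1 - θ) • sl K s) ⊆ sl K ((1 - θ) * s + θ * s') := by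
  rintro p hp
  obtain ⟨a, ha, rfl⟩ := Set.mem_vadd_set.1 hp
  obtain ⟨b, hb, rfl⟩ := Set.mem_smul_set.1 ha
  have h1 : (b, s) ∈ K := hb
  have h2 : (q, s') ∈ K := hq
  have h := hc h1 h2 (sub_nonneg.2 hθ.2) hθ.1 (by ring)
  show (θ • q +ᵥ (1 - θ) • b, (1 - θ) * s + θ * s') ∈ K
  have he : (1 - θ) • (b, s) + θ • (q, s') = (θ • q +ᵥ (1 - θ) • b, (1 - θ) * s + θ * s') := by
    ext
    · simp [add_comm]
    · simp
  rw [← he]
  exact h

end

section
variable {X : Type} [NormedAddCommGroup X] [NormedSpace ℝ X] [FiniteDimensional ℝ X]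
    [MeasureSpace X] [BorelSpace X] [(volume : Measure X).IsAddHaarMeasure]

theorem B1_cone (K : Set (X × ℝ)) (hK : IsCompact K) (hc : Convex ℝ K) (s s' θ : ℝ)
    (hθ : θ ∈ Icc (0 : ℝ) 1) (hs' : (sl K s').Nonempty) :
    (1 - θ) ^ (Module.finrank ℝ X) * ars K s ≤ ars K ((1 - θ) * s + θ * s') := by
  have : ProperSpace X := FiniteDimensional.proper_real X
  obtain ⟨q, hq⟩ := hs'
  have h1 := measure_mono (μ := (volume : Measure X)) (B1_comb K hc s s' θ hθ q hq)
  rw [measure_vadd, Measure.addHaar_smul] at h1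
  have hfin : volume (sl K ((1 - θ) * s + θ * s')) ≠ ⊤ :=
    (B1_compact K hK _).measure_lt_top.ne
  have h2 := ENNReal.toReal_mono hfin h1
  rw [ENNReal.toReal_mul, ENNReal.toReal_ofReal (abs_nonneg _),
    abs_of_nonneg (pow_nonneg (sub_nonneg.2 hθ.2) _)] at h2
  exact h2

omit [BorelSpace X] in
theorem B1_bound (K : Set (X × ℝ)) (hK : IsCompact K) :
    ∃ M : ℝ, ∀ s, ars K s ≤ M := by
  have : ProperSpace X := FiniteDimensional.proper_real X
  refine ⟨(volume (Prod.fst '' K)).toReal, fun s => ?_⟩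
  refine ENNReal.toReal_mono (hK.image continuous_fst).measure_lt_top.ne ?_
  refine measure_mono ?_
  rw [B1_slice_eq]
  exact Set.image_mono Set.inter_subset_left

end

/-- **B1** (slices of a convex body). -/
theorem B1 {X : Type} [NormedAddCommGroup X] [NormedSpace ℝ X] [FiniteDimensional ℝ X]
    [MeasureSpace X] [BorelSpace X] [(volume : Measure X).IsAddHaarMeasure]
    (K : Set (X × ℝ)) (hK : IsCompact K) (hc : Convex ℝ K) (hi : (interior K).Nonempty) :
    ∃ x0 x1 : ℝ, x0 < x1 ∧ (∀ s, (sl K s).Nonempty ↔ s ∈ Icc x0 x1) ∧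
      (∀ s ∈ Ioo x0 x1, 0 < ars K s) ∧ ContinuousOn (ars K) (Ioo x0 x1) ∧
      IntegrableOn (ars K) (Ioo x0 x1) ∧ (∫ s in Ioo x0 x1, ars K s) = (volume K).toReal ∧
      (∀ s ∈ Icc x0 x1, ∀ s' ∈ Icc x0 x1, ∀ θ ∈ Icc (0 : ℝ) 1,
        (1 - θ) ^ (Module.finrank ℝ X) * ars K s ≤ ars K ((1 - θ) * s + θ * s')) := by
  have : ProperSpace X := FiniteDimensional.proper_real X
  obtain ⟨⟨p0, s0⟩, hp0⟩ := hi
  set I : Set ℝ := Prod.snd '' K with hI
  have hIc : IsCompact I := hK.image continuous_snd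
  have hne : K.Nonempty := ⟨_, interior_subset hp0⟩
  have hIconn : IsConnected I :=
    ⟨hne.image _, (hc.isPreconnected.image _ continuous_snd.continuousOn)⟩
  have hIeq := eq_Icc_of_connected_compact hIconn hIc
  have hnon : ∀ s, (sl K s).Nonempty ↔ s ∈ I := by
    intro s
    constructor
    · rintro ⟨p, hp⟩
      exact ⟨(p, s), hp, rfl⟩
    · rintro ⟨⟨p, r⟩, hp, hr⟩
      have hr' : r = s := hr
      subst hr'
      exact ⟨p, hp⟩
  obtain ⟨x0, x1, hx⟩ : ∃ x0 x1 : ℝ, I = Icc x0 x1 := ⟨_, _, hIeq⟩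
  have hs0 : s0 ∈ Ioo x0 x1 := by
    have ho : IsOpen (Prod.snd '' interior K) := isOpenMap_snd _ isOpen_interior
    have hsub : Prod.snd '' interior K ⊆ Icc x0 x1 := by
      rw [← hx]
      exact Set.image_mono interior_subset
    have := interior_maximal hsub ho
    rw [interior_Icc] at this
    exact this ⟨_, hp0, rfl⟩
  have hnon' : ∀ s, (sl K s).Nonempty ↔ s ∈ Icc x0 x1 := fun s => by rw [hnon s, hx]
  have hcone : ∀ s s' θ : ℝ, s' ∈ Icc x0 x1 → θ ∈ Icc (0 : ℝ) 1 →
      (1 - θ) ^ (Module.finrank ℝ X) * ars K s ≤ ars K ((1 - θ) * s + θ * s') :=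
    fun s s' θ hs' hθ => B1_cone K hK hc s s' θ hθ ((hnon' s').2 hs')
  have hx01 : x0 < x1 := hs0.1.trans hs0.2
  have hfin : ∀ s, volume (sl K s) ≠ ⊤ := fun s => (B1_compact K hK s).measure_lt_top.ne
  have hpos0 : 0 < ars K s0 := by
    refine ENNReal.toReal_pos ?_ (hfin s0)
    have ho : IsOpen (sl (interior K) s0) :=
      isOpen_interior.preimage (continuous_id.prodMk continuous_const)
    have h1 : 0 < volume (sl (interior K) s0) := ho.measure_pos _ ⟨p0, hp0⟩
    have h2 : sl (interior K) s0 ⊆ sl K s0 := fun p hp =>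
      (interior_subset (show (p, s0) ∈ interior K from hp) : (p, s0) ∈ K)
    exact (h1.trans_le (measure_mono h2)).ne'
  have h0l : x0 ∈ Icc x0 x1 := ⟨le_refl _, hx01.le⟩
  have h1l : x1 ∈ Icc x0 x1 := ⟨hx01.le, le_refl _⟩
  -- cone towards `x1`
  have hright : ∀ s s' : ℝ, s ≤ s' → s' ≤ x1 → s < x1 →
      ((x1 - s') / (x1 - s)) ^ (Module.finrank ℝ X) * ars K s ≤ ars K s' := by
    intro s s' h1 h2 h3
    have hd : 0 < x1 - s := by linarith
    have hθ : (s' - s) / (x1 - s) ∈ Icc (0 : ℝ) 1 :=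
      ⟨div_nonneg (by linarith) hd.le, (div_le_one hd).2 (by linarith)⟩
    have h := hcone s x1 _ h1l hθ
    have e1 : 1 - (s' - s) / (x1 - s) = (x1 - s') / (x1 - s) := by field_simp; ring
    have e2 : (1 - (s' - s) / (x1 - s)) * s + (s' - s) / (x1 - s) * x1 = s' := by
      field_simp; ring
    rw [e2, e1] at h
    exact h
  have hleft : ∀ s s' : ℝ, s' ≤ s → x0 ≤ s' → x0 < s →
      ((s' - x0) / (s - x0)) ^ (Module.finrank ℝ X) * ars K s ≤ ars K s' := by
    intro s s' h1 h2 h3
    have hd : 0 < s - x0 := by linarith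
    have hθ : (s - s') / (s - x0) ∈ Icc (0 : ℝ) 1 :=
      ⟨div_nonneg (by linarith) hd.le, (div_le_one hd).2 (by linarith)⟩
    have h := hcone s x0 _ h0l hθ
    have e1 : 1 - (s - s') / (s - x0) = (s' - x0) / (s - x0) := by field_simp; ring
    have e2 : (1 - (s - s') / (s - x0)) * s + (s - s') / (s - x0) * x0 = s' := by
      field_simp; ring
    rw [e2, e1] at h
    exact h
  have hpos : ∀ s ∈ Ioo x0 x1, 0 < ars K s := by
    intro s hs
    rcases le_total s s0 with h | h
    · have := hleft s0 s h hs.1.le hs0.1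
      refine lt_of_lt_of_le ?_ this
      have h1 : 0 < s - x0 := sub_pos.2 hs.1
      have h2 : 0 < s0 - x0 := sub_pos.2 hs0.1
      positivity
    · have := hright s0 s h hs.2.le hs0.2
      refine lt_of_lt_of_le ?_ this
      have h1 : 0 < x1 - s := sub_pos.2 hs.2
      have h2 : 0 < x1 - s0 := sub_pos.2 hs0.2
      positivity
  have hnn : ∀ s, 0 ≤ ars K s := fun s => ENNReal.toReal_nonneg
  have hcontat : ∀ s ∈ Ioo x0 x1, ContinuousAt (ars K) s := by
    intro s hs
    set d := Module.finrank ℝ X with hd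
    have h1 : 0 < x1 - s := sub_pos.2 hs.2
    have h2 : 0 < s - x0 := sub_pos.2 hs.1
    -- lower and upper functions
    have hlow : Tendsto (fun r => (min ((x1 - r) / (x1 - s)) ((r - x0) / (s - x0))) ^ d * ars K s)
        (𝓝 s) (𝓝 (ars K s)) := by
      have hc1 : Continuous (fun r : ℝ =>
          (min ((x1 - r) / (x1 - s)) ((r - x0) / (s - x0))) ^ d * ars K s) := by
        fun_prop
      have := hc1.tendsto s
      simp only [div_self h1.ne', div_self h2.ne', min_self, one_pow, one_mul] at this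
      exact this
    have hup : Tendsto (fun r => ars K s /
        (min ((x1 - s) / (x1 - r)) ((s - x0) / (r - x0))) ^ d) (𝓝 s) (𝓝 (ars K s)) := by
      have hc1 : ContinuousAt (fun r : ℝ => ars K s /
          (min ((x1 - s) / (x1 - r)) ((s - x0) / (r - x0))) ^ d) s := by
        have ha : ContinuousAt (fun r : ℝ => (x1 - s) / (x1 - r)) s :=
          ContinuousAt.div (by fun_prop) (by fun_prop) h1.ne'
        have hb : ContinuousAt (fun r : ℝ => (s - x0) / (r - x0)) s :=
          ContinuousAt.div (by fun_prop) (by fun_prop) h2.ne'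
        refine ContinuousAt.div continuousAt_const ((ha.min hb).pow d) ?_
        simp [div_self h1.ne', div_self h2.ne']
      have := hc1.tendsto
      simp only [div_self h1.ne', div_self h2.ne', min_self, one_pow, div_one] at this
      exact this
    refine tendsto_of_tendsto_of_tendsto_of_le_of_le' hlow hup ?_ ?_
    · filter_upwards [Ioo_mem_nhds hs.1 hs.2] with r hr
      have g1 : 0 < x1 - r := sub_pos.2 hr.2
      have g2 : 0 < r - x0 := sub_pos.2 hr.1
      rcases le_total r s with h | h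
      · refine le_trans ?_ (hleft s r h hr.1.le hs.1)
        exact mul_le_mul_of_nonneg_right (pow_le_pow_left₀
          (le_min (div_nonneg g1.le h1.le) (div_nonneg g2.le h2.le)) (min_le_right _ _) _) (hnn s)
      · refine le_trans ?_ (hright s r h hr.2.le hs.2)
        exact mul_le_mul_of_nonneg_right (pow_le_pow_left₀
          (le_min (div_nonneg g1.le h1.le) (div_nonneg g2.le h2.le)) (min_le_left _ _) _) (hnn s)
    · filter_upwards [Ioo_mem_nhds hs.1 hs.2] with r hr
      have g1 : 0 < x1 - r := sub_pos.2 hr.2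
      have g2 : 0 < r - x0 := sub_pos.2 hr.1
      have hmin : 0 < min ((x1 - s) / (x1 - r)) ((s - x0) / (r - x0)) :=
        lt_min (by positivity) (by positivity)
      rw [le_div_iff₀ (by positivity), mul_comm]
      rcases le_total r s with h | h
      · refine le_trans ?_ (hright r s h hs.2.le hr.2)
        exact mul_le_mul_of_nonneg_right (pow_le_pow_left₀ hmin.le (min_le_left _ _) _) (hnn r)
      · refine le_trans ?_ (hleft r s h hs.1.le hr.1)
        exact mul_le_mul_of_nonneg_right (pow_le_pow_left₀ hmin.le (min_le_right _ _) _) (hnn r)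
  have hcont : ContinuousOn (ars K) (Ioo x0 x1) := fun s hs => (hcontat s hs).continuousWithinAt
  obtain ⟨M, hM⟩ := B1_bound K hK
  have hint : IntegrableOn (ars K) (Ioo x0 x1) := by
    refine Integrable.of_bound (hcont.aestronglyMeasurable measurableSet_Ioo) M ?_
    refine Filter.Eventually.of_forall fun s => ?_
    rw [Real.norm_of_nonneg (hnn s)]
    exact hM s
  have hvol : (∫ s in Ioo x0 x1, ars K s) = (volume K).toReal := by
    have e0 : volume K = ∫⁻ r, volume (sl K r) := Measure.prod_apply_symm hK.measurableSet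
    have e1 : (∫⁻ r, volume (sl K r)) = ∫⁻ r in Icc x0 x1, volume (sl K r) := by
      rw [← lintegral_indicator measurableSet_Icc]
      refine lintegral_congr fun r => ?_
      by_cases hr : r ∈ Icc x0 x1
      · rw [indicator_of_mem hr]
      · rw [indicator_of_notMem hr]
        have : sl K r = ∅ := Set.not_nonempty_iff_eq_empty.1 (fun h => hr ((hnon' r).1 h))
        rw [this, measure_empty]
    have e2 : (∫⁻ r in Icc x0 x1, volume (sl K r)) = ∫⁻ r in Ioo x0 x1, volume (sl K r) :=
      setLIntegral_congr Ioo_ae_eq_Icc.symm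
    rw [e0, e1, e2]
    have hm : AEMeasurable (fun r => volume (sl K r)) (volume.restrict (Ioo x0 x1)) := by
      have hh := measurable_measure_prodMk_right (μ := (volume : Measure X)) hK.measurableSet
      exact hh.aemeasurable
    exact integral_toReal hm (Filter.Eventually.of_forall fun r => (hfin r).lt_top)
  exact ⟨x0, x1, hx01, hnon', hpos, hcont, hint, hvol,
    fun s _ s' hs' θ hθ => hcone s s' θ hs' hθ⟩

end Pool.Agent.LV
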