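import Pool.Agent.Lib_helper23.LV.Defs

set_option autoImplicit false

open MeasureTheory Set Filter Topology
open scoped RealInnerProductSpace Pointwise

namespace Pool.Agent.LV

/-- facts on a primitive of a positive continuous integrable function, normalised -/
theorem B2_prim (f : ℝ → ℝ) (x0 x1 : ℝ) (hx : x0 < x1) (h1 : ∀ s ∈ Ioo x0 x1, 0 < f s)
    (h2 : ContinuousOn f (Ioo x0 x1)) (h3 : IntegrableOn f (Ioo x0 x1)) :
    ∃ F : ℝ → ℝ, StrictMonoOn F (Icc x0 x1) ∧ ContinuousOn F (Icc x0 x1) ∧ F x0 = 0 ∧ F x1 = 1 ∧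
      0 < (∫ s in Ioo x0 x1, f s) ∧
      (∀ s ∈ Ioo x0 x1, HasDerivAt F (f s / ∫ s in Ioo x0 x1, f s) s) ∧
      ∀ s ∈ Icc x0 x1, F s = (∫ r in Ioo x0 s, f r) / ∫ s in Ioo x0 x1, f s := by
  have hle := hx.le
  have hint : IntervalIntegrable f volume x0 x1 :=
    (intervalIntegrable_iff_integrableOn_Ioo_of_le hle).2 h3
  have hIoo : ∀ s, x0 ≤ s → (∫ r in x0..s, f r) = ∫ r in Ioo x0 s, f r := by
    intro s hs
    rw [intervalIntegral.integral_of_le hs, integral_Ioc_eq_integral_Ioo]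
  set m := ∫ s in Ioo x0 x1, f s with hm
  have hmpos : 0 < m := by
    rw [hm, ← hIoo x1 hle]
    exact intervalIntegral.intervalIntegral_pos_of_pos_on hint h1 hx
  have hsub : ∀ s ∈ Icc x0 x1, ∀ t ∈ Icc x0 x1, IntervalIntegrable f volume s t := by
    intro s hs t ht
    refine hint.mono_set ?_
    rw [uIcc_of_le hle]
    exact uIcc_subset_Icc hs ht
  refine ⟨fun s => (∫ r in x0..s, f r) / m, ?_, ?_, ?_, ?_, hmpos, ?_, ?_⟩
  · intro s hs t ht hst
    dsimp only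
    refine div_lt_div_of_pos_right ?_ hmpos
    have e : (∫ r in x0..s, f r) + (∫ r in s..t, f r) = ∫ r in x0..t, f r :=
      intervalIntegral.integral_add_adjacent_intervals (hsub _ ⟨le_rfl, hle⟩ _ hs) (hsub _ hs _ ht)
    have p : 0 < ∫ r in s..t, f r := by
      refine intervalIntegral.intervalIntegral_pos_of_pos_on (hsub _ hs _ ht) ?_ hst
      intro x hx'
      exact h1 x ⟨lt_of_le_of_lt hs.1 hx'.1, lt_of_lt_of_le hx'.2 ht.2⟩
    linarith
  · refine ContinuousOn.div_const ?_ m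
    have h := intervalIntegral.continuousOn_primitive_interval (f := f) (μ := volume)
      (a := x0) (b := x1) (by
        rw [uIcc_of_le hle]
        exact (integrableOn_Icc_iff_integrableOn_Ioo).2 h3)
    rwa [uIcc_of_le hle] at h
  · simp
  · dsimp only
    rw [hIoo x1 hle, ← hm, div_self hmpos.ne']
  · intro s hs
    have hs' : s ∈ Icc x0 x1 := Ioo_subset_Icc_self hs
    have hd : HasDerivAt (fun u => ∫ r in x0..u, f r) (f s) s := by
      refine intervalIntegral.integral_hasDerivAt_right (hsub _ ⟨le_rfl, hle⟩ _ hs') ?_ ?_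
      · exact h2.stronglyMeasurableAtFilter isOpen_Ioo s hs
      · exact h2.continuousAt (isOpen_Ioo.mem_nhds hs)
    exact hd.div_const m
  · intro s hs
    dsimp only
    rw [hIoo s hs.1]

theorem B2_core (f g : ℝ → ℝ) (x0 x1 y0 y1 : ℝ) (hx : x0 < x1) (hy : y0 < y1)
    (hK1 : ∀ s ∈ Ioo x0 x1, 0 < f s) (hK2 : ContinuousOn f (Ioo x0 x1))
    (hK3 : IntegrableOn f (Ioo x0 x1))
    (hL1 : ∀ s ∈ Ioo y0 y1, 0 < g s) (hL2 : ContinuousOn g (Ioo y0 y1))
    (hL3 : IntegrableOn g (Ioo y0 y1)) :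
    ∃ ξ : ℝ → ℝ, StrictMonoOn ξ (Ioo x0 x1) ∧ ξ '' (Ioo x0 x1) = Ioo y0 y1 ∧
      (∀ s ∈ Ioo x0 x1, HasDerivAt ξ
        ((∫ s in Ioo y0 y1, g s) / (∫ s in Ioo x0 x1, f s) * f s / g (ξ s)) s) ∧
      (∀ s ∈ Ioo x0 x1, (∫ r in Ioo x0 s, f r) / (∫ s in Ioo x0 x1, f s) =
        (∫ r in Ioo y0 (ξ s), g r) / (∫ s in Ioo y0 y1, g s)) := by
  obtain ⟨F, hFm, hFc, hF0, hF1, hfp, hFd, hFe⟩ := B2_prim f x0 x1 hx hK1 hK2 hK3
  obtain ⟨G, hGm, hGc, hG0, hG1, hgp, hGd, hGe⟩ := B2_prim g y0 y1 hy hL1 hL2 hL3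
  have hFI : ∀ s ∈ Ioo x0 x1, F s ∈ Ioo (0 : ℝ) 1 := by
    intro s hs
    constructor
    · rw [← hF0]
      exact hFm ⟨le_rfl, hx.le⟩ (Ioo_subset_Icc_self hs) hs.1
    · rw [← hF1]
      exact hFm (Ioo_subset_Icc_self hs) ⟨hx.le, le_rfl⟩ hs.2
  have hGI : ∀ s ∈ Ioo y0 y1, G s ∈ Ioo (0 : ℝ) 1 := by
    intro s hs
    constructor
    · rw [← hG0]
      exact hGm ⟨le_rfl, hy.le⟩ (Ioo_subset_Icc_self hs) hs.1
    · rw [← hG1]
      exact hGm (Ioo_subset_Icc_self hs) ⟨hy.le, le_rfl⟩ hs.2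
  -- the inverse of G
  have hGs : ∀ v ∈ Ioo (0 : ℝ) 1, ∃ y ∈ Ioo y0 y1, G y = v := by
    intro v hv
    have h := intermediate_value_Ioo hy.le hGc
    rw [hG0, hG1] at h
    exact h hv
  choose! H hHI hGH using hGs
  have hFs : ∀ v ∈ Ioo (0 : ℝ) 1, ∃ x ∈ Ioo x0 x1, F x = v := by
    intro v hv
    have h := intermediate_value_Ioo hx.le hFc
    rw [hF0, hF1] at h
    exact h hv
  have hHG : ∀ y ∈ Ioo y0 y1, H (G y) = y := by
    intro y hy'
    exact hGm.injOn (Ioo_subset_Icc_self (hHI _ (hGI y hy'))) (Ioo_subset_Icc_self hy')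
      (hGH _ (hGI y hy'))
  have hHm : StrictMonoOn H (Ioo (0 : ℝ) 1) := by
    intro v hv w hw hvw
    by_contra hc
    push Not at hc
    have := hGm.monotoneOn (Ioo_subset_Icc_self (hHI w hw)) (Ioo_subset_Icc_self (hHI v hv)) hc
    rw [hGH w hw, hGH v hv] at this
    exact absurd hvw (not_lt.2 this)
  have hHimg : H '' (Ioo (0 : ℝ) 1) = Ioo y0 y1 := by
    ext y
    constructor
    · rintro ⟨v, hv, rfl⟩
      exact hHI v hv
    · intro hy'
      exact ⟨G y, hGI y hy', hHG y hy'⟩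
  have hHd : ∀ v ∈ Ioo (0 : ℝ) 1,
      HasDerivAt H (g (H v) / ∫ s in Ioo y0 y1, g s)⁻¹ v := by
    intro v hv
    have hc : ContinuousAt H v := by
      refine hHm.continuousAt_of_image_mem_nhds (Ioo_mem_nhds hv.1 hv.2) ?_
      rw [hHimg]
      exact isOpen_Ioo.mem_nhds (hHI v hv)
    refine HasDerivAt.of_local_left_inverse hc (hGd _ (hHI v hv)) ?_ ?_
    · exact (div_pos (hL1 _ (hHI v hv)) hgp).ne'
    · filter_upwards [Ioo_mem_nhds hv.1 hv.2] with w hw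
      exact hGH w hw
  refine ⟨fun s => H (F s), ?_, ?_, ?_, ?_⟩
  · intro s hs t ht hst
    exact hHm (hFI s hs) (hFI t ht) (hFm (Ioo_subset_Icc_self hs) (Ioo_subset_Icc_self ht) hst)
  · ext y
    constructor
    · rintro ⟨s, hs, rfl⟩
      exact hHI _ (hFI s hs)
    · intro hy'
      obtain ⟨x, hx', hxe⟩ := hFs (G y) (hGI y hy')
      refine ⟨x, hx', ?_⟩
      dsimp only
      rw [hxe, hHG y hy']
  · intro s hs
    have h := (hHd (F s) (hFI s hs)).comp s (hFd s hs)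
    have e : (∫ s in Ioo y0 y1, g s) / (∫ s in Ioo x0 x1, f s) * f s / g (H (F s)) =
        (g (H (F s)) / ∫ s in Ioo y0 y1, g s)⁻¹ * (f s / ∫ s in Ioo x0 x1, f s) := by
      rw [inv_div]
      ring
    rw [e]
    exact h
  · intro s hs
    have hH := hHI _ (hFI s hs)
    rw [← hFe s (Ioo_subset_Icc_self hs), ← hGe _ (Ioo_subset_Icc_self hH), hGH _ (hFI s hs)]

/-- **B2** (mass transport between the heights). -/
theorem B2 {X : Type} [NormedAddCommGroup X] [NormedSpace ℝ X] [FiniteDimensional ℝ X]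
    [MeasureSpace X] [BorelSpace X] [(volume : Measure X).IsAddHaarMeasure]
    (K L : Set (X × ℝ)) (x0 x1 y0 y1 : ℝ) (hx : x0 < x1) (hy : y0 < y1)
    (hK1 : ∀ s ∈ Ioo x0 x1, 0 < ars K s) (hK2 : ContinuousOn (ars K) (Ioo x0 x1))
    (hK3 : IntegrableOn (ars K) (Ioo x0 x1))
    (hK4 : (∫ s in Ioo x0 x1, ars K s) = (volume K).toReal)
    (hL1 : ∀ s ∈ Ioo y0 y1, 0 < ars L s) (hL2 : ContinuousOn (ars L) (Ioo y0 y1))
    (hL3 : IntegrableOn (ars L) (Ioo y0 y1))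
    (hL4 : (∫ s in Ioo y0 y1, ars L s) = (volume L).toReal) :
    ∃ ξ : ℝ → ℝ, StrictMonoOn ξ (Ioo x0 x1) ∧ ξ '' (Ioo x0 x1) = Ioo y0 y1 ∧
      (∀ s ∈ Ioo x0 x1, HasDerivAt ξ
        ((volume L).toReal / (volume K).toReal * ars K s / ars L (ξ s)) s) ∧
      (∀ s ∈ Ioo x0 x1, (∫ r in Ioo x0 s, ars K r) / (volume K).toReal =
        (∫ r in Ioo y0 (ξ s), ars L r) / (volume L).toReal) := by
  have h := B2_core (ars K) (ars L) x0 x1 y0 y1 hx hy hK1 hK2 hK3 hL1 hL2 hL3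
  rw [hK4, hL4] at h
  exact h

end Pool.Agent.LV
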