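import Pool.Agent.Lib_helper23.LV.Defs

set_option autoImplicit false

open MeasureTheory Set Filter Topology
open scoped RealInnerProductSpace Pointwise

namespace Pool.Agent.LV

theorem B3_deriv_nonneg (x0 x1 : ℝ) (ξ : ℝ → ℝ) (hξ : StrictMonoOn ξ (Ioo x0 x1)) (s d : ℝ)
    (hs : s ∈ Ioo x0 x1) (hd : HasDerivAt ξ d s) : 0 ≤ d := by
  have h := hasDerivAt_iff_tendsto_slope.1 hd
  refine ge_of_tendsto h ?_
  have hm : Ioo x0 x1 ∈ 𝓝[≠] s := mem_nhdsWithin_of_mem_nhds (Ioo_mem_nhds hs.1 hs.2)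
  filter_upwards [hm, self_mem_nhdsWithin] with y hy hne
  rw [slope_def_field]
  rcases lt_or_gt_of_ne (show y ≠ s from hne) with h1 | h1
  · exact div_nonneg_of_nonpos (sub_nonpos.2 (hξ hy hs h1).le) (sub_nonpos.2 h1.le)
  · exact div_nonneg (sub_nonneg.2 (hξ hs hy h1).le) (sub_nonneg.2 h1.le)

theorem B3_vol {X : Type} [NormedAddCommGroup X] [NormedSpace ℝ X] [FiniteDimensional ℝ X]
    [MeasureSpace X] [BorelSpace X] [(volume : Measure X).IsAddHaarMeasure]
    (M : Set (X × ℝ)) (hM : IsCompact M) :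
    volume M = ∫⁻ r, volume (sl M r) := by
  have : ProperSpace X := FiniteDimensional.proper_real X
  exact Measure.prod_apply_symm hM.measurableSet

/-- **B3** (lower bound for the volume of `K + tL` by slicing along a monotone map `ξ`). -/
theorem B3 {X : Type} [NormedAddCommGroup X] [NormedSpace ℝ X] [FiniteDimensional ℝ X]
    [MeasureSpace X] [BorelSpace X] [(volume : Measure X).IsAddHaarMeasure]
    (K L : Set (X × ℝ)) (hK : IsCompact K) (hL : IsCompact L) (x0 x1 : ℝ) (hx : x0 < x1)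
    (ξ ξ' φ : ℝ → ℝ) (hξ : StrictMonoOn ξ (Ioo x0 x1))
    (hd : ∀ s ∈ Ioo x0 x1, HasDerivAt ξ (ξ' s) s)
    (t : ℝ) (ht : 0 < t) (hφ : ContinuousOn φ (Ioo x0 x1))
    (hφ0 : ∀ s ∈ Ioo x0 x1, 0 ≤ φ s)
    (hφ1 : ∀ s ∈ Ioo x0 x1, φ s ≤ (volume (sl K s + t • sl L (ξ s))).toReal)
    (hξ' : ContinuousOn ξ' (Ioo x0 x1)) :
    (∫ s in Ioo x0 x1, φ s * (1 + t * ξ' s)) ≤ (volume (K + t • L)).toReal := by
  have : ProperSpace X := FiniteDimensional.proper_real X
  have hM : IsCompact (K + t • L) := hK.add (hL.smul t)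
  have hpos : ∀ s ∈ Ioo x0 x1, 0 ≤ 1 + t * ξ' s := fun s hs => by
    have := B3_deriv_nonneg x0 x1 ξ hξ s (ξ' s) hs (hd s hs)
    positivity
  have hmeas : MeasurableSet (Ioo x0 x1) := measurableSet_Ioo
  have hcont : ContinuousOn (fun s => φ s * (1 + t * ξ' s)) (Ioo x0 x1) :=
    hφ.mul (continuousOn_const.add (continuousOn_const.mul hξ'))
  have hint : (∫ s in Ioo x0 x1, φ s * (1 + t * ξ' s)) =
      (∫⁻ s in Ioo x0 x1, ENNReal.ofReal (φ s * (1 + t * ξ' s))).toReal := by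
    apply integral_eq_lintegral_of_nonneg_ae
    · refine (ae_restrict_iff' hmeas).2 (Filter.Eventually.of_forall fun s hs => ?_)
      exact mul_nonneg (hφ0 s hs) (hpos s hs)
    · exact hcont.aestronglyMeasurable hmeas
  rw [hint]
  refine ENNReal.toReal_mono hM.measure_lt_top.ne ?_
  have hinj : InjOn (fun s => s + t * ξ s) (Ioo x0 x1) := by
    apply StrictMonoOn.injOn
    intro a ha b hb hab
    have := hξ ha hb hab
    show a + t * ξ a < b + t * ξ b
    nlinarith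
  have hder : ∀ s ∈ Ioo x0 x1,
      HasDerivWithinAt (fun s => s + t * ξ s) (1 + t * ξ' s) (Ioo x0 x1) s := fun s hs =>
    ((hasDerivAt_id s).add ((hd s hs).const_mul t)).hasDerivWithinAt
  have hch := lintegral_image_eq_lintegral_abs_deriv_mul hmeas hder hinj
    (fun r => volume (sl (K + t • L) r))
  have hsub : ∀ s, sl K s + t • sl L (ξ s) ⊆ sl (K + t • L) (s + t * ξ s) := by
    intro s p hp
    obtain ⟨a, ha, b, hb, rfl⟩ := Set.mem_add.1 hp
    obtain ⟨c, hc, rfl⟩ := Set.mem_smul_set.1 hb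
    show (a + t • c, s + t * ξ s) ∈ K + t • L
    refine Set.mem_add.2 ⟨(a, s), ha, t • (c, ξ s), Set.smul_mem_smul_set hc, ?_⟩
    ext <;> simp
  calc (∫⁻ s in Ioo x0 x1, ENNReal.ofReal (φ s * (1 + t * ξ' s)))
      ≤ ∫⁻ s in Ioo x0 x1, ENNReal.ofReal |1 + t * ξ' s| *
          volume (sl (K + t • L) (s + t * ξ s)) := by
        refine setLIntegral_mono' hmeas fun s hs => ?_
        rw [mul_comm (φ s), ENNReal.ofReal_mul (hpos s hs), abs_of_nonneg (hpos s hs)]
        gcongr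
        calc ENNReal.ofReal (φ s) ≤ ENNReal.ofReal (volume (sl K s + t • sl L (ξ s))).toReal :=
              ENNReal.ofReal_le_ofReal (hφ1 s hs)
          _ ≤ volume (sl K s + t • sl L (ξ s)) := ENNReal.ofReal_toReal_le
          _ ≤ _ := measure_mono (hsub s)
    _ = ∫⁻ r in (fun s => s + t * ξ s) '' Ioo x0 x1, volume (sl (K + t • L) r) := hch.symm
    _ ≤ ∫⁻ r, volume (sl (K + t • L) r) := setLIntegral_le_lintegral _ _
    _ = volume (K + t • L) := (B3_vol _ hM).symm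

end Pool.Agent.LV
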