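import Pool.Agent.Lib_helper23.LV.B1
import Pool.Agent.Lib_helper23.LV.B2
import Pool.Agent.Lib_helper23.LV.B3

set_option autoImplicit false

open MeasureTheory Set Filter Topology
open scoped RealInnerProductSpace Pointwise

namespace Pool.Agent.LV

theorem B4_interior {C : Set (ℝ × ℝ)} (hc : Convex ℝ C) (hv : 0 < volume C) :
    (interior C).Nonempty := by
  by_contra hne
  rw [not_nonempty_iff_eq_empty] at hne
  have h1 : C ⊆ frontier C := by
    intro x hx
    rw [frontier, hne, sdiff_empty]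
    exact subset_closure hx
  have h2 : volume C ≤ 0 := by
    calc volume C ≤ volume (frontier C) := measure_mono h1
      _ = 0 := hc.addHaar_frontier _
  exact absurd hv (not_lt.2 h2)

theorem B4_sl_disc (y : ℝ) (hy : y ∈ Icc (-1 : ℝ) 1) :
    sl (disc 1) y = Icc (-Real.sqrt (1 - y ^ 2)) (Real.sqrt (1 - y ^ 2)) := by
  have h1 : 0 ≤ 1 - y ^ 2 := by nlinarith [hy.1, hy.2]
  ext x
  simp only [sl, disc, mem_ofPred_eq, mem_Icc]
  rw [← abs_le, ← Real.sqrt_sq_eq_abs]
  rw [Real.sqrt_le_sqrt_iff h1]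
  constructor <;> intro h <;> linarith

theorem B4_ars_disc (y : ℝ) (hy : y ∈ Icc (-1 : ℝ) 1) :
    ars (disc 1) y = 2 * Real.sqrt (1 - y ^ 2) := by
  rw [ars, B4_sl_disc y hy, Real.volume_Icc, ENNReal.toReal_ofReal]
  · ring
  · have := Real.sqrt_nonneg (1 - y ^ 2)
    linarith

theorem B4_disc_pos (y : ℝ) (hy : y ∈ Ioo (-1 : ℝ) 1) : 0 < Real.sqrt (1 - y ^ 2) := by
  apply Real.sqrt_pos.2
  nlinarith [hy.1, hy.2]

theorem B4_cont_ars_disc : ContinuousOn (ars (disc 1)) (Ioo (-1 : ℝ) 1) := by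
  have h : ContinuousOn (fun y : ℝ => 2 * Real.sqrt (1 - y ^ 2)) (Ioo (-1 : ℝ) 1) := by
    fun_prop
  refine h.congr fun y hy => ?_
  exact B4_ars_disc y (Ioo_subset_Icc_self hy)

theorem B4_compact_disc : IsCompact (disc 1) := by
  refine Metric.isCompact_of_isClosed_isBounded ?_ ?_
  · have : disc 1 = (fun p : ℝ × ℝ => p.1 ^ 2 + p.2 ^ 2) ⁻¹' Iic (1 ^ 2) := rfl
    rw [this]
    exact isClosed_Iic.preimage (by fun_prop)
  · refine (Metric.isBounded_Icc ((-1 : ℝ), (-1 : ℝ)) (1, 1)).subset ?_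
    intro p hp
    simp only [disc, mem_ofPred_eq] at hp
    refine ⟨⟨?_, ?_⟩, ⟨?_, ?_⟩⟩ <;> simp only [] <;> nlinarith [sq_nonneg p.1, sq_nonneg p.2]

theorem B4_convex_disc : Convex ℝ (disc 1) := by
  intro p hp q hq a b ha hb hab
  simp only [disc, mem_ofPred_eq] at hp hq ⊢
  simp only [Prod.fst_add, Prod.smul_fst, Prod.snd_add, Prod.smul_snd, smul_eq_mul]
  have hb' : b = 1 - a := by linarith
  subst hb'
  nlinarith [mul_nonneg ha hb, sq_nonneg (p.1 - q.1), sq_nonneg (p.2 - q.2),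
    mul_nonneg (mul_nonneg ha hb) (sq_nonneg (p.1 - q.1)),
    mul_nonneg (mul_nonneg ha hb) (sq_nonneg (p.2 - q.2))]

theorem B4_interior_disc : (interior (disc 1)).Nonempty := by
  refine ⟨(0, 0), ?_⟩
  rw [mem_interior]
  refine ⟨{p : ℝ × ℝ | p.1 ^ 2 + p.2 ^ 2 < 1}, ?_, ?_, by simp⟩
  · intro p hp
    simp only [disc, mem_ofPred_eq] at hp ⊢
    linarith
  · exact isOpen_lt (by fun_prop) (by fun_prop)

theorem B4_int_ars_disc : (∫ s in Ioo (-1 : ℝ) 1, ars (disc 1) s) = Real.pi := by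
  have h1 : (∫ s in Ioo (-1 : ℝ) 1, ars (disc 1) s) =
      ∫ s in Ioo (-1 : ℝ) 1, 2 * Real.sqrt (1 - s ^ 2) := by
    refine setIntegral_congr_fun measurableSet_Ioo fun y hy => ?_
    exact B4_ars_disc y (Ioo_subset_Icc_self hy)
  rw [h1, ← integral_Ioc_eq_integral_Ioo, ← intervalIntegral.integral_of_le (by norm_num),
    intervalIntegral.integral_const_mul, integral_sqrt_one_sub_sq]
  ring

theorem B4_int_disc' : IntegrableOn (ars (disc 1)) (Ioo (-1 : ℝ) 1) := by
  have h : IntegrableOn (fun y : ℝ => 2 * Real.sqrt (1 - y ^ 2)) (Ioo (-1 : ℝ) 1) := by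
    refine (ContinuousOn.integrableOn_Icc (a := -1) (b := 1) ?_).mono_set Ioo_subset_Icc_self
    fun_prop
  refine h.congr_fun (fun y hy => ?_) measurableSet_Ioo
  exact (B4_ars_disc y (Ioo_subset_Icc_self hy)).symm

/-- the volume of the disc -/
theorem B4_vol_disc : (volume (disc 1)).toReal = Real.pi := by
  obtain ⟨x0, x1, hx, h1, h2, -, h3, h4, -⟩ := B1 (X := ℝ) (disc 1) B4_compact_disc B4_convex_disc
    B4_interior_disc
  have hI : Icc x0 x1 = Icc (-1 : ℝ) 1 := by
    ext s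
    rw [← h1 s]
    constructor
    · rintro ⟨x, hx'⟩
      simp only [sl, disc, mem_ofPred_eq] at hx'
      constructor <;> nlinarith [sq_nonneg x, sq_nonneg s]
    · intro hs
      rw [B4_sl_disc s hs]
      exact nonempty_Icc.2 (by linarith [Real.sqrt_nonneg (1 - s ^ 2)])
  have hx0 : x0 = -1 ∧ x1 = 1 := (Icc_eq_Icc_iff hx.le).1 hI
  rw [hx0.1, hx0.2] at h4
  rw [← h4, B4_int_ars_disc]

/-- the measure of the sum of two slices -/
theorem B4_slice {C : Set (ℝ × ℝ)} (hC : IsCompact C) (hc : Convex ℝ C) (s : ℝ)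
    (hs : (sl C s).Nonempty) (y : ℝ) (hy : y ∈ Icc (-1 : ℝ) 1) (ρ : ℝ) (hρ : 0 < ρ) :
    (volume (sl C s + ρ • sl (disc 1) y)).toReal = ars C s + ρ * (2 * Real.sqrt (1 - y ^ 2)) := by
  have hcomp : IsCompact (sl C s) := by
    refine (hC.image continuous_fst).of_isClosed_subset ?_ ?_
    · have : sl C s = (fun x : ℝ => (x, s)) ⁻¹' C := rfl
      rw [this]
      exact hC.isClosed.preimage (by fun_prop)
    · intro x hx
      exact ⟨(x, s), hx, rfl⟩
  have hconv : Convex ℝ (sl C s) := by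
    intro x hx x' hx' a b ha hb hab
    have h := hc hx hx' ha hb hab
    have e : a • (x, s) + b • (x', s) = (a • x + b • x', s) := by
      ext
      · simp
      · simp only [Prod.smul_mk, smul_eq_mul, Prod.mk_add_mk]
        rw [← add_mul, hab, one_mul]
    rw [e] at h
    exact h
  have hIcc := eq_Icc_of_connected_compact ⟨hs, hconv.isPreconnected⟩ hcomp
  set l := sInf (sl C s) with hl
  set r := sSup (sl C s) with hr
  have hlr : l ≤ r := by
    rw [hIcc] at hs
    exact nonempty_Icc.1 hs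
  have hw := Real.sqrt_nonneg (1 - y ^ 2)
  have hars : ars C s = r - l := by
    rw [ars, hIcc, Real.volume_Icc, ENNReal.toReal_ofReal (by linarith)]
  rw [B4_sl_disc y hy, LinearOrderedField.smul_Icc hρ, hIcc]
  rw [Icc_add_Icc hlr (by nlinarith), Real.volume_Icc, ENNReal.toReal_ofReal (by nlinarith), hars]
  ring

/-- the case `0 < ρ` -/
theorem B4_pos (C : Set (ℝ × ℝ)) (hC : IsCompact C) (hc : Convex ℝ C) (hv : 0 < volume C)
    (ρ : ℝ) (hρ : 0 < ρ) :
    (Real.sqrt (volume C).toReal + Real.sqrt Real.pi * ρ) ^ 2 ≤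
      (volume (C + ρ • disc 1)).toReal := by
  obtain ⟨x0, x1, hx, h1, h2, h2', h3, h4, -⟩ := B1 (X := ℝ) C hC hc (B4_interior hc hv)
  have hVpos : 0 < (volume C).toReal := by
    refine ENNReal.toReal_pos hv.ne' ?_
    exact hC.measure_lt_top.ne
  set V := (volume C).toReal with hV
  obtain ⟨ξ, hξm, hξi, hξd, -⟩ := B2 (X := ℝ) C (disc 1) x0 x1 (-1) 1 hx (by norm_num) h2 h2' h3 h4
    (by
      intro s hs
      rw [B4_ars_disc s (Ioo_subset_Icc_self hs)]
      have := B4_disc_pos s hs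
      positivity)
    B4_cont_ars_disc B4_int_disc' (by rw [B4_int_ars_disc, B4_vol_disc])
  rw [B4_vol_disc, ← hV] at hξd
  have hξI : ∀ s ∈ Ioo x0 x1, ξ s ∈ Ioo (-1 : ℝ) 1 := by
    intro s hs
    rw [← hξi]
    exact mem_image_of_mem ξ hs
  have hπ := Real.pi_pos
  -- the multiplier
  set κ : ℝ := (1 + ρ * Real.sqrt (Real.pi / V)) ^ 2 with hκ
  set ξ' : ℝ → ℝ := fun s => Real.pi / V * ars C s / ars (disc 1) (ξ s) with hξ'
  have hdpos : ∀ s ∈ Ioo x0 x1, 0 < ars (disc 1) (ξ s) := by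
    intro s hs
    rw [B4_ars_disc _ (Ioo_subset_Icc_self (hξI s hs))]
    have := B4_disc_pos _ (hξI s hs)
    positivity
  have hξ'pos : ∀ s ∈ Ioo x0 x1, 0 < ξ' s := by
    intro s hs
    have a1 := h2 s hs
    have a2 := hdpos s hs
    simp only [hξ']
    positivity
  have hξc : ContinuousOn ξ (Ioo x0 x1) := fun s hs => (hξd s hs).continuousAt.continuousWithinAt
  have hξ'c : ContinuousOn ξ' (Ioo x0 x1) := by
    refine ContinuousOn.div (continuousOn_const.mul h2') ?_ fun s hs => (hdpos s hs).ne'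
    exact B4_cont_ars_disc.comp hξc fun s hs => hξI s hs
  have hden : ∀ s ∈ Ioo x0 x1, 0 < 1 + ρ * ξ' s := by
    intro s hs
    have := hξ'pos s hs
    positivity
  have key := B3 (X := ℝ) C (disc 1) hC B4_compact_disc x0 x1 hx ξ ξ'
    (fun s => κ * ars C s / (1 + ρ * ξ' s)) hξm hξd ρ hρ
    (by
      refine ContinuousOn.div (continuousOn_const.mul h2') ?_ fun s hs => (hden s hs).ne'
      exact continuousOn_const.add (continuousOn_const.mul hξ'c))
    (by
      intro s hs
      have a1 := h2 s hs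
      have a2 := hden s hs
      have a3 : 0 ≤ κ := sq_nonneg _
      positivity)
    (by
      intro s hs
      have a1 := h2 s hs
      have a2 := hden s hs
      have hne : (sl C s).Nonempty := (h1 s).2 (Ioo_subset_Icc_self hs)
      have hyI := Ioo_subset_Icc_self (hξI s hs)
      rw [B4_slice hC hc s hne _ hyI ρ hρ, ← B4_ars_disc _ hyI]
      rw [div_le_iff₀ a2]
      -- c κ ≤ (c + ρ d) (1 + ρ ξ')
      set c := ars C s with hcdef
      set d := ars (disc 1) (ξ s) with hddef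
      have hd : 0 < d := hdpos s hs
      have hξe : ξ' s = Real.pi / V * c / d := rfl
      set w := Real.sqrt (Real.pi / V) with hw
      have hw0 : 0 ≤ w := Real.sqrt_nonneg _
      have hw2 : w ^ 2 = Real.pi / V := Real.sq_sqrt (by positivity)
      rw [hξe, ← hw2, hκ]
      have e1 : (c + ρ * d) * (1 + ρ * (w ^ 2 * c / d)) =
          c + ρ * (d + w ^ 2 * c ^ 2 / d) + ρ ^ 2 * w ^ 2 * c := by
        field_simp
        ring
      have e2 : 2 * w * c ≤ d + w ^ 2 * c ^ 2 / d := by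
        have : d + w ^ 2 * c ^ 2 / d - 2 * w * c = (d - w * c) ^ 2 / d := by
          field_simp
          ring
        have h0 : 0 ≤ (d - w * c) ^ 2 / d := by positivity
        linarith
      rw [e1]
      nlinarith [mul_le_mul_of_nonneg_left e2 hρ.le])
    hξ'c
  have hint : (∫ s in Ioo x0 x1, κ * ars C s / (1 + ρ * ξ' s) * (1 + ρ * ξ' s)) = κ * V := by
    have : (∫ s in Ioo x0 x1, κ * ars C s / (1 + ρ * ξ' s) * (1 + ρ * ξ' s)) =
        ∫ s in Ioo x0 x1, κ * ars C s := by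
      refine setIntegral_congr_fun measurableSet_Ioo fun s hs => ?_
      rw [div_mul_cancel₀ _ (hden s hs).ne']
    rw [this, integral_const_mul, h4]
  rw [hint] at key
  refine le_trans (le_of_eq ?_) key
  rw [hκ]
  have hsV : Real.sqrt V ^ 2 = V := Real.sq_sqrt hVpos.le
  have hsV0 : 0 < Real.sqrt V := Real.sqrt_pos.2 hVpos
  rw [Real.sqrt_div' _ hVpos.le]
  nth_rw 3 [← hsV]
  field_simp

/-- **B4** (planar Brunn-Minkowski inequality with a disc). -/
theorem B4 (C : Set (ℝ × ℝ)) (hC : IsCompact C) (hc : Convex ℝ C) (hv : 0 < volume C)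
    (ρ : ℝ) (hρ : 0 ≤ ρ) :
    (Real.sqrt (volume C).toReal + Real.sqrt Real.pi * ρ) ^ 2 ≤
      (volume (C + disc ρ)).toReal := by
  rcases hρ.eq_or_lt with h0 | h0
  · subst h0
    have : C + disc 0 = C := by
      have h : disc 0 = {(0 : ℝ × ℝ)} := by
        ext p
        simp only [disc, mem_ofPred_eq, mem_singleton_iff]
        constructor
        · intro hp
          have h1 : p.1 = 0 := by nlinarith [sq_nonneg p.1, sq_nonneg p.2]
          have h2 : p.2 = 0 := by nlinarith [sq_nonneg p.1, sq_nonneg p.2]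
          exact Prod.ext h1 h2
        · rintro rfl
          simp
      rw [h, add_singleton]
      simp
    rw [this, mul_zero, add_zero, Real.sq_sqrt ENNReal.toReal_nonneg]
  · have : disc ρ = ρ • disc 1 := by
      ext p
      rw [mem_smul_set_iff_inv_smul_mem₀ h0.ne']
      simp only [disc, mem_ofPred_eq, Prod.smul_fst, Prod.smul_snd, smul_eq_mul]
      rw [mul_pow, mul_pow, ← mul_add, inv_pow, inv_mul_le_iff₀ (by positivity)]
      simp
    rw [this]
    exact B4_pos C hC hc hv ρ h0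

end Pool.Agent.LV
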