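import Pool.Agent.Lib_helper23.LV.B4

set_option autoImplicit false

open MeasureTheory Set Filter Topology
open scoped RealInnerProductSpace Pointwise

namespace Pool.Agent.LV

theorem B5_interior {K : Set ((ℝ × ℝ) × ℝ)} (hc : Convex ℝ K) (hv : 0 < volume K) :
    (interior K).Nonempty := by
  by_contra hne
  rw [not_nonempty_iff_eq_empty] at hne
  have h1 : K ⊆ frontier K := by
    intro x hx
    rw [frontier, hne, sdiff_empty]
    exact subset_closure hx
  have h2 : volume K ≤ 0 := by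
    have hH : (volume : Measure ((ℝ × ℝ) × ℝ)).IsAddHaarMeasure :=
      inferInstanceAs (((volume : Measure (ℝ × ℝ)).prod (volume : Measure ℝ)).IsAddHaarMeasure)
    calc volume K ≤ volume (frontier K) := measure_mono h1
      _ = 0 := hc.addHaar_frontier _
  exact absurd hv (not_lt.2 h2)

theorem B5_compact_ball : IsCompact ball3 := by
  refine Metric.isCompact_of_isClosed_isBounded ?_ ?_
  · have : ball3 = (fun q : (ℝ × ℝ) × ℝ => q.1.1 ^ 2 + q.1.2 ^ 2 + q.2 ^ 2) ⁻¹' Iic 1 := rfl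
    rw [this]
    exact isClosed_Iic.preimage (by fun_prop)
  · refine (Metric.isBounded_Icc (((-1 : ℝ), (-1 : ℝ)), (-1 : ℝ)) ((1, 1), 1)).subset ?_
    intro p hp
    simp only [ball3, mem_ofPred_eq] at hp
    refine ⟨⟨⟨?_, ?_⟩, ?_⟩, ⟨⟨?_, ?_⟩, ?_⟩⟩ <;> simp only [] <;>
      nlinarith [sq_nonneg p.1.1, sq_nonneg p.1.2, sq_nonneg p.2]

theorem B5_convex_ball : Convex ℝ ball3 := by
  intro p hp q hq a b ha hb hab
  simp only [ball3, mem_ofPred_eq] at hp hq ⊢
  simp only [Prod.fst_add, Prod.smul_fst, Prod.snd_add, Prod.smul_snd, smul_eq_mul]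
  have hb' : b = 1 - a := by linarith
  subst hb'
  nlinarith [mul_nonneg (mul_nonneg ha hb) (sq_nonneg (p.1.1 - q.1.1)),
    mul_nonneg (mul_nonneg ha hb) (sq_nonneg (p.1.2 - q.1.2)),
    mul_nonneg (mul_nonneg ha hb) (sq_nonneg (p.2 - q.2))]

theorem B5_interior_ball : (interior ball3).Nonempty := by
  refine ⟨((0, 0), 0), ?_⟩
  rw [mem_interior]
  refine ⟨{q : (ℝ × ℝ) × ℝ | q.1.1 ^ 2 + q.1.2 ^ 2 + q.2 ^ 2 < 1}, ?_, ?_, by simp⟩
  · intro p hp
    simp only [ball3, mem_ofPred_eq] at hp ⊢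
    linarith
  · exact isOpen_lt (by fun_prop) (by fun_prop)

theorem B5_sl_ball (y : ℝ) (hy : y ∈ Icc (-1 : ℝ) 1) :
    sl ball3 y = disc (Real.sqrt (1 - y ^ 2)) := by
  have h1 : 0 ≤ 1 - y ^ 2 := by nlinarith [hy.1, hy.2]
  ext x
  simp only [sl, disc, ball3, mem_ofPred_eq]
  rw [Real.sq_sqrt h1]
  constructor <;> intro h <;> linarith

theorem B5_disc_smul {r : ℝ} (hr : 0 < r) (s : ℝ) : disc (r * s) = r • disc s := by
  ext p
  rw [mem_smul_set_iff_inv_smul_mem₀ hr.ne']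
  simp only [disc, mem_ofPred_eq, Prod.smul_fst, Prod.smul_snd, smul_eq_mul]
  rw [mul_pow, mul_pow, mul_pow, ← mul_add, inv_pow, inv_mul_le_iff₀ (by positivity)]

theorem B5_ars_ball (y : ℝ) (hy : y ∈ Ioo (-1 : ℝ) 1) :
    ars ball3 y = Real.pi * (1 - y ^ 2) := by
  have h1 : 0 < 1 - y ^ 2 := by nlinarith [hy.1, hy.2]
  have h2 : 0 < Real.sqrt (1 - y ^ 2) := Real.sqrt_pos.2 h1
  rw [ars, B5_sl_ball y (Ioo_subset_Icc_self hy)]
  have h3 : disc (Real.sqrt (1 - y ^ 2)) = Real.sqrt (1 - y ^ 2) • disc 1 := by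
    rw [← B5_disc_smul h2, mul_one]
  rw [h3, Measure.addHaar_smul, ENNReal.toReal_mul, B4_vol_disc,
    ENNReal.toReal_ofReal (abs_nonneg _)]
  have h4 : Module.finrank ℝ (ℝ × ℝ) = 2 := by simp
  rw [h4, abs_of_nonneg (by positivity), Real.sq_sqrt h1.le]
  ring

theorem B5_ball_cont : ContinuousOn (ars ball3) (Ioo (-1 : ℝ) 1) := by
  have h : ContinuousOn (fun y : ℝ => Real.pi * (1 - y ^ 2)) (Ioo (-1 : ℝ) 1) := by
    fun_prop
  exact h.congr fun y hy => B5_ars_ball y hy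

theorem B5_ball_int : IntegrableOn (ars ball3) (Ioo (-1 : ℝ) 1) := by
  have h : IntegrableOn (fun y : ℝ => Real.pi * (1 - y ^ 2)) (Ioo (-1 : ℝ) 1) := by
    refine (ContinuousOn.integrableOn_Icc (a := -1) (b := 1) ?_).mono_set Ioo_subset_Icc_self
    fun_prop
  exact h.congr_fun (fun y hy => (B5_ars_ball y hy).symm) measurableSet_Ioo

/-- partial masses of the ball -/
theorem B5_mass (w : ℝ) (hw : w ∈ Icc (-1 : ℝ) 1) :
    (∫ s in Ioo (-1 : ℝ) w, ars ball3 s) = Real.pi * (w - w ^ 3 / 3) + 2 * Real.pi / 3 := by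
  have h1 : (∫ s in Ioo (-1 : ℝ) w, ars ball3 s) =
      ∫ s in Ioo (-1 : ℝ) w, Real.pi * (1 - s ^ 2) := by
    refine setIntegral_congr_fun measurableSet_Ioo fun y hy => ?_
    exact B5_ars_ball y ⟨hy.1, lt_of_lt_of_le hy.2 hw.2⟩
  rw [h1, ← integral_Ioc_eq_integral_Ioo, ← intervalIntegral.integral_of_le hw.1,
    intervalIntegral.integral_const_mul, intervalIntegral.integral_sub (by simp) (by simp)]
  simp only [intervalIntegral.integral_const, integral_pow, smul_eq_mul]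
  ring

theorem B5_vol_ball : (volume ball3).toReal = 4 * Real.pi / 3 := by
  obtain ⟨x0, x1, hx, h1, h2, -, h3, h4, -⟩ := B1 (X := ℝ × ℝ) ball3 B5_compact_ball
    B5_convex_ball B5_interior_ball
  have hI : Icc x0 x1 = Icc (-1 : ℝ) 1 := by
    ext s
    rw [← h1 s]
    constructor
    · rintro ⟨x, hx'⟩
      simp only [sl, ball3, mem_ofPred_eq] at hx'
      constructor <;> nlinarith [sq_nonneg x.1, sq_nonneg x.2, sq_nonneg s]
    · intro hs
      rw [B5_sl_ball s hs]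
      refine ⟨(0, 0), ?_⟩
      simp only [disc, mem_ofPred_eq]
      have := sq_nonneg (Real.sqrt (1 - s ^ 2))
      simpa using this
  have hx0 : x0 = -1 ∧ x1 = 1 := (Icc_eq_Icc_iff hx.le).1 hI
  rw [hx0.1, hx0.2] at h4
  rw [← h4, B5_mass 1 (by norm_num)]
  ring

theorem B5 (K : Set ((ℝ × ℝ) × ℝ)) (hK : IsCompact K) (hc : Convex ℝ K)
    (hv : (volume K).toReal = 4 * Real.pi / 3) :
    ∃ (x0 x1 : ℝ) (ξ : ℝ → ℝ), x0 < x1 ∧ (∀ s, (sl K s).Nonempty ↔ s ∈ Icc x0 x1) ∧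
      (∀ s ∈ Ioo x0 x1, 0 < ars K s) ∧ ContinuousOn (ars K) (Ioo x0 x1) ∧
      IntegrableOn (ars K) (Ioo x0 x1) ∧ (∫ s in Ioo x0 x1, ars K s) = 4 * Real.pi / 3 ∧
      (∀ s ∈ Icc x0 x1, ∀ s' ∈ Icc x0 x1, ∀ θ ∈ Icc (0 : ℝ) 1,
        (1 - θ) ^ 2 * ars K s ≤ ars K ((1 - θ) * s + θ * s')) ∧
      StrictMonoOn ξ (Ioo x0 x1) ∧ ξ '' (Ioo x0 x1) = Ioo (-1) 1 ∧
      (∀ s ∈ Ioo x0 x1, HasDerivAt ξ (ars K s / (Real.pi * (1 - ξ s ^ 2))) s) ∧
      (∀ s ∈ Ioo x0 x1, (∫ r in Ioo x0 s, ars K r) =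
        Real.pi * (ξ s - ξ s ^ 3 / 3) + 2 * Real.pi / 3) ∧
      IntegrableOn (fun s => ars K s * (ars K s / (Real.pi * (1 - ξ s ^ 2)) +
        2 / Real.sqrt (ars K s / (Real.pi * (1 - ξ s ^ 2))) - 3)) (Ioo x0 x1) ∧
      ∀ t : ℝ, 0 < t → 4 * Real.pi / 3 + t * (4 * Real.pi + ∫ s in Ioo x0 x1, ars K s *
        (ars K s / (Real.pi * (1 - ξ s ^ 2)) +
          2 / Real.sqrt (ars K s / (Real.pi * (1 - ξ s ^ 2))) - 3)) ≤
        (volume (K + t • ball3)).toReal := by
  have hπ := Real.pi_pos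
  have hvpos : 0 < volume K := by
    by_contra h
    have h0 : volume K = 0 := by simpa using h
    rw [h0] at hv
    simp at hv
    linarith
  have hint := B5_interior hc hvpos
  obtain ⟨x0, x1, hx, h1, h2, h3, h4, h5, h6⟩ := B1 (X := ℝ × ℝ) K hK hc hint
  rw [hv] at h5
  have hfr : Module.finrank ℝ (ℝ × ℝ) = 2 := by simp
  rw [hfr] at h6
  obtain ⟨ξ, k1, k2, k3, k4⟩ := B2 (X := ℝ × ℝ) K ball3 x0 x1 (-1) 1 hx (by norm_num) h2 h3 h4
    (by rw [h5, hv]) (fun s hs => by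
      rw [B5_ars_ball s hs]
      have : 0 < 1 - s ^ 2 := by nlinarith [hs.1, hs.2]
      positivity) B5_ball_cont B5_ball_int (by
        rw [B5_vol_ball, B5_mass 1 (by norm_num)]; ring)
  have hξmem : ∀ s ∈ Ioo x0 x1, ξ s ∈ Ioo (-1 : ℝ) 1 := fun s hs => by
    rw [← k2]; exact mem_image_of_mem _ hs
  have hR : ∀ s ∈ Ioo x0 x1, 0 < 1 - ξ s ^ 2 := fun s hs => by
    have := hξmem s hs
    nlinarith [this.1, this.2]
  have k3' : ∀ s ∈ Ioo x0 x1, HasDerivAt ξ (ars K s / (Real.pi * (1 - ξ s ^ 2))) s := by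
    intro s hs
    have := k3 s hs
    rwa [B5_vol_ball, hv, div_self (by positivity), one_mul, B5_ars_ball _ (hξmem s hs)] at this
  have k4' : ∀ s ∈ Ioo x0 x1, (∫ r in Ioo x0 s, ars K r) =
      Real.pi * (ξ s - ξ s ^ 3 / 3) + 2 * Real.pi / 3 := by
    intro s hs
    have := k4 s hs
    rw [B5_vol_ball, hv, B5_mass _ (Ioo_subset_Icc_self (hξmem s hs)),
      div_left_inj' (by positivity)] at this
    exact this
  set a := ars K with ha
  set ξ' : ℝ → ℝ := fun s => a s / (Real.pi * (1 - ξ s ^ 2)) with hξ'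
  have hξc : ContinuousOn ξ (Ioo x0 x1) := fun s hs => (k3' s hs).continuousAt.continuousWithinAt
  have hξ'c : ContinuousOn ξ' (Ioo x0 x1) := by
    refine h3.div (by fun_prop) fun s hs => ?_
    have := hR s hs
    positivity
  have hξ'pos : ∀ s ∈ Ioo x0 x1, 0 < ξ' s := fun s hs => by
    have := hR s hs
    have := h2 s hs
    simp only [hξ']
    positivity
  obtain ⟨M, hM⟩ := B1_bound (X := ℝ × ℝ) K hK
  have hM' : ∀ s, a s ≤ M := hM
  have ha0 : ∀ s, 0 ≤ a s := fun s => ENNReal.toReal_nonneg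
  have hM0 : 0 ≤ M := (ha0 0).trans (hM' 0)
  -- integrability of ξ'
  have hξ'i : IntegrableOn ξ' (Ioo x0 x1) := by
    have h7 : IntegrableOn (fun _ : ℝ => (1 : ℝ)) (ξ '' Ioo x0 x1) := by
      rw [k2]; exact integrableOn_const (by simp)
    rw [integrableOn_image_iff_integrableOn_abs_deriv_smul measurableSet_Ioo
      (fun s hs => (k3' s hs).hasDerivWithinAt) k1.injOn] at h7
    refine h7.congr_fun (fun s hs => ?_) measurableSet_Ioo
    simp only [smul_eq_mul, mul_one]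
    exact abs_of_pos (hξ'pos s hs)
  have hbdd : ∀ (g f : ℝ → ℝ) (B : ℝ), ContinuousOn g (Ioo x0 x1) → (∀ s ∈ Ioo x0 x1, |g s| ≤ B) →
      IntegrableOn f (Ioo x0 x1) → IntegrableOn (fun s => g s * f s) (Ioo x0 x1) := by
    intro g f B hg hB hf
    refine Integrable.bdd_mul (c := B) hf (hg.aestronglyMeasurable measurableSet_Ioo) ?_
    rw [ae_restrict_iff' measurableSet_Ioo]
    exact Eventually.of_forall fun s hs => by rw [Real.norm_eq_abs]; exact hB s hs
  have hone : IntegrableOn (fun _ : ℝ => (1 : ℝ)) (Ioo x0 x1) := integrableOn_const (by simp)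
  have hconti : ∀ (g : ℝ → ℝ) (B : ℝ), ContinuousOn g (Ioo x0 x1) →
      (∀ s ∈ Ioo x0 x1, |g s| ≤ B) → IntegrableOn g (Ioo x0 x1) := by
    intro g B hg hB
    have := hbdd g _ B hg hB hone
    simpa using this
  have i1 : IntegrableOn (fun s => a s * ξ' s) (Ioo x0 x1) :=
    hbdd a ξ' M h3 (fun s _ => by rw [abs_of_nonneg (ha0 s)]; exact hM' s) hξ'i
  -- the second term
  set w : ℝ → ℝ := fun s => Real.sqrt (a s) * Real.sqrt (1 - ξ s ^ 2) with hw
  have hwc : ContinuousOn w (Ioo x0 x1) := by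
    refine (h3.sqrt).mul ?_
    exact (continuousOn_const.sub (hξc.pow 2)).sqrt
  have hsq1 : ∀ s, Real.sqrt (1 - ξ s ^ 2) ≤ 1 := fun s => by
    exact Real.sqrt_le_one.2 (by nlinarith [sq_nonneg (ξ s)])
  have hwb : ∀ s ∈ Ioo x0 x1, |w s| ≤ Real.sqrt M := by
    intro s _
    have e1 : 0 ≤ w s := by positivity
    rw [abs_of_nonneg e1]
    calc w s ≤ Real.sqrt M * 1 := by
          simp only [hw]
          gcongr
          · exact hM' s
          · exact hsq1 s
      _ = _ := mul_one _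
  have i2 : IntegrableOn w (Ioo x0 x1) := hconti w _ hwc hwb
  have key : ∀ s ∈ Ioo x0 x1, a s * (2 / Real.sqrt (ξ' s)) = 2 * Real.sqrt Real.pi * w s := by
    intro s hs
    have e1 := hR s hs
    have e2 := h2 s hs
    simp only [hξ', hw]
    rw [Real.sqrt_div e2.le, Real.sqrt_mul hπ.le]
    have e3 : a s = Real.sqrt (a s) * Real.sqrt (a s) := (Real.mul_self_sqrt e2.le).symm
    have e4 : Real.sqrt (a s) ≠ 0 := (Real.sqrt_pos.2 e2).ne'
    rw [div_div_eq_mul_div, mul_div_assoc']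
    rw [div_eq_iff e4]
    linear_combination (2 * Real.sqrt Real.pi * Real.sqrt (1 - ξ s ^ 2)) * e3
  have i3 : IntegrableOn (fun s => a s * (ξ' s + 2 / Real.sqrt (ξ' s) - 3)) (Ioo x0 x1) := by
    have h8 : IntegrableOn (fun s => a s * ξ' s + 2 * Real.sqrt Real.pi * w s - 3 * a s)
        (Ioo x0 x1) := (i1.add (i2.const_mul _)).sub (h4.const_mul _)
    refine h8.congr_fun (fun s hs => ?_) measurableSet_Ioo
    have := key s hs
    linear_combination -this
  have hD : (∫ s in Ioo x0 x1, a s * (ξ' s + 2 / Real.sqrt (ξ' s) - 3)) =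
      (∫ s in Ioo x0 x1, a s * ξ' s) + 2 * Real.sqrt Real.pi * (∫ s in Ioo x0 x1, w s) -
        4 * Real.pi := by
    have e1 : (∫ s in Ioo x0 x1, a s * (ξ' s + 2 / Real.sqrt (ξ' s) - 3)) =
        ∫ s in Ioo x0 x1, (a s * ξ' s + 2 * Real.sqrt Real.pi * w s - 3 * a s) := by
      refine setIntegral_congr_fun measurableSet_Ioo fun s hs => ?_
      have := key s hs
      linear_combination this
    have i12 : IntegrableOn (fun s => a s * ξ' s + 2 * Real.sqrt Real.pi * w s) (Ioo x0 x1) :=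
      i1.add (i2.const_mul _)
    rw [e1, integral_sub i12 (h4.const_mul _), integral_add i1 (i2.const_mul _),
      integral_const_mul, integral_const_mul, h5]
    ring
  refine ⟨x0, x1, ξ, hx, h1, h2, h3, h4, h5, h6, k1, k2, k3', k4', i3, fun t ht => ?_⟩
  change 4 * Real.pi / 3 + t * (4 * Real.pi +
    ∫ s in Ioo x0 x1, a s * (ξ' s + 2 / Real.sqrt (ξ' s) - 3)) ≤ _
  rw [hD]
  set φ : ℝ → ℝ := fun s =>
    (Real.sqrt (a s) + Real.sqrt Real.pi * (t * Real.sqrt (1 - ξ s ^ 2))) ^ 2 with hφ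
  have hφc : ContinuousOn φ (Ioo x0 x1) := by
    refine ContinuousOn.pow (h3.sqrt.add (continuousOn_const.mul (continuousOn_const.mul ?_))) 2
    exact (continuousOn_const.sub (hξc.pow 2)).sqrt
  have hB3 := B3 (X := ℝ × ℝ) K ball3 hK B5_compact_ball x0 x1 hx ξ ξ' φ k1 k3' t ht hφc
    (fun s _ => sq_nonneg _) ?_ hξ'c
  · refine le_trans ?_ hB3
    have e1 : 4 * Real.pi / 3 + t * (4 * Real.pi + ((∫ s in Ioo x0 x1, a s * ξ' s) +
        2 * Real.sqrt Real.pi * (∫ s in Ioo x0 x1, w s) - 4 * Real.pi)) =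
        ∫ s in Ioo x0 x1, (a s + t * (a s * ξ' s + 2 * Real.sqrt Real.pi * w s)) := by
      have i12 : IntegrableOn (fun s => a s * ξ' s + 2 * Real.sqrt Real.pi * w s) (Ioo x0 x1) :=
        i1.add (i2.const_mul _)
      rw [integral_add h4 (i12.const_mul _), integral_const_mul, integral_add i1 (i2.const_mul _),
        integral_const_mul, h5]
      ring
    rw [e1]
    refine setIntegral_mono_on ?_ ?_ measurableSet_Ioo ?_
    · exact h4.add ((i1.add (i2.const_mul _)).const_mul _)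
    · have e2 : ∀ s ∈ Ioo x0 x1, |φ s| ≤ (Real.sqrt M + Real.sqrt Real.pi * (t * 1)) ^ 2 := by
        intro s _
        rw [abs_of_nonneg (sq_nonneg _)]
        simp only [hφ]
        gcongr
        · exact hM' s
        · exact hsq1 s
      have e3 : IntegrableOn (fun s => φ s * (1 + t * ξ' s)) (Ioo x0 x1) :=
        hbdd φ _ _ hφc e2 (hone.add (hξ'i.const_mul _))
      exact e3
    · intro s hs
      have f1 := hξ'pos s hs
      have f2 : 0 ≤ a s := ha0 s
      have f3 : 0 ≤ w s := by simp only [hw]; positivity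
      have f4 : a s + 2 * (Real.sqrt Real.pi * t * w s) ≤ φ s := by
        have : φ s = Real.sqrt (a s) ^ 2 + 2 * (Real.sqrt Real.pi * t * w s) +
            (Real.sqrt Real.pi * (t * Real.sqrt (1 - ξ s ^ 2))) ^ 2 := by
          simp only [hφ, hw]; ring
        rw [this, Real.sq_sqrt f2]
        nlinarith [sq_nonneg (Real.sqrt Real.pi * (t * Real.sqrt (1 - ξ s ^ 2)))]
      have f5 : 0 ≤ Real.sqrt Real.pi * t * w s := by positivity
      calc a s + t * (a s * ξ' s + 2 * Real.sqrt Real.pi * w s) ≤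
            (a s + 2 * (Real.sqrt Real.pi * t * w s)) * (1 + t * ξ' s) := by
              have : 0 ≤ 2 * (Real.sqrt Real.pi * t * w s) * (t * ξ' s) := by positivity
              nlinarith
        _ ≤ φ s * (1 + t * ξ' s) := by gcongr
  · intro s hs
    have e1 : IsCompact (sl K s) := B1_compact K hK s
    have e2 : Convex ℝ (sl K s) := by
      intro p hp q hq u v hu hv huv
      have := hc (show ((p, s) : (ℝ × ℝ) × ℝ) ∈ K from hp) (show ((q, s) : (ℝ × ℝ) × ℝ) ∈ K from hq)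
        hu hv huv
      have e : u • ((p, s) : (ℝ × ℝ) × ℝ) + v • (q, s) = (u • p + v • q, s) := by
        ext1
        · rfl
        · simp only [Prod.snd_add, Prod.smul_snd, smul_eq_mul]
          rw [← add_mul, huv, one_mul]
      rw [e] at this
      exact this
    have e3 : 0 < volume (sl K s) := by
      have := h2 s hs
      exact (ENNReal.toReal_pos_iff.1 this).1
    have e4 := B4 (sl K s) e1 e2 e3 (t * Real.sqrt (1 - ξ s ^ 2)) (by positivity)
    rw [B5_disc_smul ht, ← B5_sl_ball _ (Ioo_subset_Icc_self (hξmem s hs))] at e4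
    exact e4

end Pool.Agent.LV
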