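import Pool.Agent.Lib_helper23.LV.Defs

set_option autoImplicit false

open MeasureTheory Set Filter Topology
open scoped RealInnerProductSpace

namespace Pool.Agent.LV

/-- the convex deficit function -/
theorem B6_psi (u : ℝ) (hu : 0 < u) :
    (Real.sqrt u - 1) ^ 2 ≤ u + 2 / Real.sqrt u - 3 := by
  have hv : 0 < Real.sqrt u := Real.sqrt_pos.2 hu
  set v := Real.sqrt u with hv'
  have e : u = v ^ 2 := (Real.sq_sqrt hu.le).symm
  have h : u + 2 / v - 3 - (v - 1) ^ 2 = 2 * (v - 1) ^ 2 / v := by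
    rw [e]; field_simp; ring
  have h2 : 0 ≤ 2 * (v - 1) ^ 2 / v := by positivity
  linarith

theorem B6_psi_half (u : ℝ) (hu : 0 < u) (hu2 : u < 1 / 2) :
    3 / 10 ≤ u + 2 / Real.sqrt u - 3 := by
  have hv : 0 < Real.sqrt u := Real.sqrt_pos.2 hu
  set v := Real.sqrt u with hv'
  have e : u = v ^ 2 := (Real.sq_sqrt hu.le).symm
  have hv1 : v < 71 / 100 := by
    by_contra hc
    push Not at hc
    have : (71 / 100 : ℝ) ^ 2 ≤ v ^ 2 := by gcongr
    rw [← e] at this
    norm_num at this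
    linarith
  have h : u + 2 / v - 3 - 3 / 10 = (v ^ 3 - 33 / 10 * v + 2) / v := by
    rw [e]; field_simp; ring
  have h2 : 0 ≤ (v ^ 3 - 33 / 10 * v + 2) / v := by
    apply div_nonneg _ hv.le
    nlinarith [mul_pos hv hv, mul_pos (mul_pos hv hv) hv, sq_nonneg (v - 71 / 100)]
  linarith

theorem B6_abs (u e : ℝ) (hu : 0 < u) (he : 0 < e) :
    |u - 1| ≤ e + (1 + 1 / e) * (u + 2 / Real.sqrt u - 3) := by
  have h1 := B6_psi u hu
  have hv : 0 < Real.sqrt u := Real.sqrt_pos.2 hu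
  set v := Real.sqrt u with hv'
  have e1 : u = v ^ 2 := (Real.sq_sqrt hu.le).symm
  have h2 : |u - 1| ≤ e + (1 + 1 / e) * (v - 1) ^ 2 := by
    have h3 : (1 / e) * (v - 1) ^ 2 + e ≥ 2 * |v - 1| := by
      have : (1 / e) * (v - 1) ^ 2 + e - 2 * |v - 1| = (1 / e) * (|v - 1| - e) ^ 2 := by
        rw [← sq_abs (v - 1)]; field_simp; ring
      have : 0 ≤ (1 / e) * (|v - 1| - e) ^ 2 := by positivity
      linarith
    have h4 : |u - 1| ≤ 2 * |v - 1| + (v - 1) ^ 2 := by
      rw [e1]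
      have : v ^ 2 - 1 = 2 * (v - 1) + (v - 1) ^ 2 := by ring
      rw [this]
      refine (abs_add_le _ _).trans ?_
      rw [abs_mul, abs_of_nonneg (sq_nonneg (v - 1))]
      norm_num
    nlinarith
  calc |u - 1| ≤ e + (1 + 1 / e) * (v - 1) ^ 2 := h2
    _ ≤ _ := by gcongr

section
variable {x0 x1 : ℝ} {a ξ : ℝ → ℝ}

/-- mass between two levels -/
theorem B6_mass (hai : IntegrableOn a (Ioo x0 x1))
    (hM : ∀ s ∈ Ioo x0 x1, (∫ r in Ioo x0 s, a r) =
      Real.pi * (ξ s - ξ s ^ 3 / 3) + 2 * Real.pi / 3) (s s' : ℝ) (hs : s ∈ Ioo x0 x1)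
    (hs' : s' ∈ Ioo x0 x1) (hss : s ≤ s') :
    (∫ r in Ico s s', a r) = Real.pi * ((ξ s' - ξ s' ^ 3 / 3) - (ξ s - ξ s ^ 3 / 3)) := by
  have h1 := hM s hs
  have h2 := hM s' hs'
  have h3 : Ioo x0 s' = Ioo x0 s ∪ Ico s s' := by
    rw [Ioo_union_Ico_eq_Ioo hs.1 hss]
  rw [h3, setIntegral_union _ measurableSet_Ico] at h2
  · rw [h1] at h2; linarith
  · exact hai.mono_set (Ioo_subset_Ioo le_rfl hs.2.le)
  · exact hai.mono_set (fun r hr => ⟨hs.1.trans_le hr.1, hr.2.trans hs'.2⟩)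
  · rw [Set.disjoint_left]
    intro r hr hr'
    exact absurd hr.2 (not_lt.2 hr'.1)

/-- mass beyond a level -/
theorem B6_tail (hai : IntegrableOn a (Ioo x0 x1))
    (htot : (∫ s in Ioo x0 x1, a s) = 4 * Real.pi / 3)
    (hM : ∀ s ∈ Ioo x0 x1, (∫ r in Ioo x0 s, a r) =
      Real.pi * (ξ s - ξ s ^ 3 / 3) + 2 * Real.pi / 3) (s : ℝ) (hs : s ∈ Ioo x0 x1) :
    (∫ r in Ico s x1, a r) = 2 * Real.pi / 3 - Real.pi * (ξ s - ξ s ^ 3 / 3) := by
  have h1 := hM s hs
  have h3 : Ioo x0 x1 = Ioo x0 s ∪ Ico s x1 := by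
    rw [Ioo_union_Ico_eq_Ioo hs.1 hs.2.le]
  rw [h3, setIntegral_union _ measurableSet_Ico] at htot
  · rw [h1] at htot; linarith
  · exact hai.mono_set (Ioo_subset_Ioo le_rfl hs.2.le)
  · exact hai.mono_set (fun r hr => ⟨hs.1.trans_le hr.1, hr.2⟩)
  · rw [Set.disjoint_left]
    intro r hr hr'
    exact absurd hr.2 (not_lt.2 hr'.1)

end

/-- **B6** (one dimensional analysis: small deficit forces the extent to be close to `[-1,1]`). -/
theorem B6 (η : ℝ) (hη : 0 < η) : ∃ δ : ℝ, 0 < δ ∧ ∀ (x0 x1 : ℝ) (a ξ : ℝ → ℝ), x0 < x1 →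
    (∀ s ∈ Ioo x0 x1, 0 < a s) → ContinuousOn a (Ioo x0 x1) → IntegrableOn a (Ioo x0 x1) →
    (∫ s in Ioo x0 x1, a s) = 4 * Real.pi / 3 →
    (∀ s ∈ Icc x0 x1, ∀ s' ∈ Icc x0 x1, ∀ θ ∈ Icc (0 : ℝ) 1,
      (1 - θ) ^ 2 * a s ≤ a ((1 - θ) * s + θ * s')) →
    (∫ s in Ioo x0 x1, s * a s) = 0 →
    StrictMonoOn ξ (Ioo x0 x1) → ξ '' (Ioo x0 x1) = Ioo (-1) 1 →
    (∀ s ∈ Ioo x0 x1, HasDerivAt ξ (a s / (Real.pi * (1 - ξ s ^ 2))) s) →
    (∀ s ∈ Ioo x0 x1, (∫ r in Ioo x0 s, a r) =
      Real.pi * (ξ s - ξ s ^ 3 / 3) + 2 * Real.pi / 3) →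
    IntegrableOn (fun s => a s * (a s / (Real.pi * (1 - ξ s ^ 2)) +
      2 / Real.sqrt (a s / (Real.pi * (1 - ξ s ^ 2))) - 3)) (Ioo x0 x1) →
    (∫ s in Ioo x0 x1, a s * (a s / (Real.pi * (1 - ξ s ^ 2)) +
      2 / Real.sqrt (a s / (Real.pi * (1 - ξ s ^ 2))) - 3)) ≤ δ →
    |x1 - 1| ≤ η ∧ |x0 + 1| ≤ η := by
  have hπ := Real.pi_pos
  have hπ3 := Real.pi_gt_three
  have hπ4 := Real.pi_lt_four
  set z := min (η / 300) (1 / 8) with hz
  have hz0 : 0 < z := by positivity
  have hz1 : z ≤ η / 300 := min_le_left _ _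
  have hz2 : z ≤ 1 / 8 := min_le_right _ _
  set e := η * z / 440 with he
  have he0 : 0 < e := by positivity
  set δ := min (Real.pi * z ^ 2 / 4) (η / 40 * (Real.pi * z / 8) / (1 + 1 / e)) with hδ
  have hδ0 : 0 < δ := by positivity
  refine ⟨δ, hδ0, fun x0 x1 a ξ hx ha hac hai htot hcone hcen hmono himg hder hM hDi hD => ?_⟩
  set u : ℝ → ℝ := fun s => a s / (Real.pi * (1 - ξ s ^ 2)) with hu
  have hξmem : ∀ s ∈ Ioo x0 x1, ξ s ∈ Ioo (-1 : ℝ) 1 := fun s hs => by
    rw [← himg]; exact mem_image_of_mem _ hs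
  have hR : ∀ s ∈ Ioo x0 x1, 0 < 1 - ξ s ^ 2 := fun s hs => by
    have := hξmem s hs
    nlinarith [this.1, this.2]
  have hupos : ∀ s ∈ Ioo x0 x1, 0 < u s := fun s hs => by
    have := hR s hs
    have := ha s hs
    simp only [hu]; positivity
  have hau : ∀ s ∈ Ioo x0 x1, a s = Real.pi * (1 - ξ s ^ 2) * u s := fun s hs => by
    have := hR s hs
    simp only [hu]; field_simp
  have hder' : ∀ s ∈ Ioo x0 x1, HasDerivAt ξ (u s) s := hder
  set ψ : ℝ → ℝ := fun s => u s + 2 / Real.sqrt (u s) - 3 with hψ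
  have hψ0 : ∀ s ∈ Ioo x0 x1, 0 ≤ ψ s := fun s hs =>
    (sq_nonneg _).trans (B6_psi (u s) (hupos s hs))
  have hDi' : IntegrableOn (fun s => a s * ψ s) (Ioo x0 x1) := hDi
  have hD' : (∫ s in Ioo x0 x1, a s * ψ s) ≤ δ := hD
  have hξc : ContinuousOn ξ (Ioo x0 x1) := fun s hs => (hder' s hs).continuousAt.continuousWithinAt
  -- preimages of levels
  have hpre : ∀ w ∈ Ioo (-1 : ℝ) 1, ∃ s ∈ Ioo x0 x1, ξ s = w := fun w hw => by
    rw [← himg] at hw; exact hw
  -- (a) good points near the ends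
  have hgood : ∀ w w' : ℝ, -1 < w → w < w' → w' < 1 →
      z ≤ w' - w → (∀ t ∈ Icc w w', z ≤ 1 - t ^ 2) →
      Real.pi * z ^ 2 ≤ Real.pi * ((w' - w' ^ 3 / 3) - (w - w ^ 3 / 3)) →
      ∃ s ∈ Ioo x0 x1, ξ s ∈ Icc w w' ∧ Real.pi * z / 2 ≤ a s := by
    intro w w' hw1 hww hw2 _ hz1w hmass
    obtain ⟨s, hs, hsw⟩ := hpre w ⟨hw1, by linarith⟩
    obtain ⟨s', hs', hsw'⟩ := hpre w' ⟨by linarith, hw2⟩
    have hss : s < s' := by
      by_contra hc
      push Not at hc
      have := hmono.monotoneOn hs' hs hc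
      rw [hsw, hsw'] at this; linarith
    have hsub : Ico s s' ⊆ Ioo x0 x1 := fun r hr => ⟨hs.1.trans_le hr.1, hr.2.trans hs'.2⟩
    by_contra hno
    push Not at hno
    have hlow : ∀ r ∈ Ico s s', 3 / 10 * a r ≤ a r * ψ r := by
      intro r hr
      have hr' := hsub hr
      have hξr : ξ r ∈ Icc w w' := by
        refine ⟨?_, ?_⟩
        · rw [← hsw]; exact hmono.monotoneOn hs hr' hr.1
        · rw [← hsw']; exact hmono.monotoneOn hr' hs' hr.2.le
      have h1 := hno r hr' hξr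
      have h2 : u r < 1 / 2 := by
        have h3 := hau r hr'
        have h4 := hz1w (ξ r) hξr
        by_contra hc
        push Not at hc
        have : Real.pi * z * (1 / 2) ≤ Real.pi * (1 - ξ r ^ 2) * u r := by
          have := hR r hr'
          gcongr
        rw [← h3] at this
        linarith
      have h5 := B6_psi_half (u r) (hupos r hr') h2
      have h6 := ha r hr'
      calc 3 / 10 * a r = a r * (3 / 10) := by ring
        _ ≤ a r * ψ r := by gcongr
    have h7 : (∫ r in Ico s s', 3 / 10 * a r) ≤ ∫ r in Ico s s', a r * ψ r :=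
      setIntegral_mono_on ((hai.mono_set hsub).const_mul _) (hDi'.mono_set hsub)
        measurableSet_Ico hlow
    have h8 : (∫ r in Ico s s', a r * ψ r) ≤ ∫ r in Ioo x0 x1, a r * ψ r := by
      refine setIntegral_mono_set hDi' ?_ (ae_of_all _ hsub)
      rw [EventuallyLE, ae_restrict_iff' measurableSet_Ioo]
      exact Eventually.of_forall fun r hr => mul_nonneg (ha r hr).le (hψ0 r hr)
    rw [integral_const_mul, B6_mass hai hM s s' hs hs' hss.le, hsw, hsw'] at h7
    have h9 : δ ≤ Real.pi * z ^ 2 / 4 := min_le_left _ _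
    have h10 : 0 < Real.pi * z ^ 2 := by positivity
    linarith
  obtain ⟨sp, hsp, hξp, hap⟩ := hgood (1 - 2 * z) (1 - z) (by linarith) (by linarith)
    (by linarith) (by linarith) (fun t ht => by nlinarith [ht.1, ht.2]) (by
      gcongr
      nlinarith [hz0.le, mul_pos hz0 hz0, mul_pos (mul_pos hz0 hz0) hz0])
  obtain ⟨sm, hsm, hξm, ham⟩ := hgood (-1 + z) (-1 + 2 * z) (by linarith) (by linarith)
    (by linarith) (by linarith) (fun t ht => by nlinarith [ht.1, ht.2]) (by
      gcongr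
      nlinarith [hz0.le, mul_pos hz0 hz0, mul_pos (mul_pos hz0 hz0) hz0])
  have hsmp : sm < sp := by
    by_contra hc
    push Not at hc
    have := hmono.monotoneOn hsp hsm hc
    linarith [hξp.1, hξm.2]
  -- (b) lower bound of `a` in the middle
  have hmid : ∀ s ∈ Icc sm sp, Real.pi * z / 8 ≤ a s := by
    intro s hs
    have hL : 0 < sp - sm := by linarith
    rcases le_total s ((sm + sp) / 2) with h | h
    · have hθ : (s - sm) / (sp - sm) ∈ Icc (0 : ℝ) 1 :=
        ⟨div_nonneg (by linarith [hs.1]) hL.le, (div_le_one hL).2 (by linarith [hs.2])⟩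
      have h1 := hcone sm (Ioo_subset_Icc_self hsm) sp (Ioo_subset_Icc_self hsp) _ hθ
      have e1 : (1 - (s - sm) / (sp - sm)) * sm + (s - sm) / (sp - sm) * sp = s := by
        field_simp; ring
      rw [e1] at h1
      have h2 : (s - sm) / (sp - sm) ≤ 1 / 2 := by rw [div_le_iff₀ hL]; linarith
      have h3 : (1 / 4 : ℝ) ≤ (1 - (s - sm) / (sp - sm)) ^ 2 := by nlinarith
      have h4 : 1 / 4 * (Real.pi * z / 2) ≤ (1 - (s - sm) / (sp - sm)) ^ 2 * a sm := by
        gcongr
      linarith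
    · have hθ : (sp - s) / (sp - sm) ∈ Icc (0 : ℝ) 1 :=
        ⟨div_nonneg (by linarith [hs.2]) hL.le, (div_le_one hL).2 (by linarith [hs.1])⟩
      have h1 := hcone sp (Ioo_subset_Icc_self hsp) sm (Ioo_subset_Icc_self hsm) _ hθ
      have e1 : (1 - (sp - s) / (sp - sm)) * sp + (sp - s) / (sp - sm) * sm = s := by
        field_simp; ring
      rw [e1] at h1
      have h2 : (sp - s) / (sp - sm) ≤ 1 / 2 := by rw [div_le_iff₀ hL]; linarith
      have h3 : (1 / 4 : ℝ) ≤ (1 - (sp - s) / (sp - sm)) ^ 2 := by nlinarith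
      have h4 : 1 / 4 * (Real.pi * z / 2) ≤ (1 - (sp - s) / (sp - sm)) ^ 2 * a sp := by
        gcongr
      linarith
  have hsubm : Icc sm sp ⊆ Ioo x0 x1 := fun r hr => ⟨hsm.1.trans_le hr.1, hr.2.trans_lt hsp.2⟩
  -- length of the middle
  have hlen : (sp - sm) * (Real.pi * z / 8) ≤ 4 * Real.pi / 3 := by
    have h1 : (∫ r in Icc sm sp, Real.pi * z / 8) ≤ ∫ r in Icc sm sp, a r :=
      setIntegral_mono_on (integrableOn_const (by simp)) (hai.mono_set hsubm)
        measurableSet_Icc hmid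
    have h2 : (∫ r in Icc sm sp, a r) ≤ ∫ r in Ioo x0 x1, a r := by
      refine setIntegral_mono_set hai ?_ (ae_of_all _ hsubm)
      rw [EventuallyLE, ae_restrict_iff' measurableSet_Ioo]
      exact Eventually.of_forall fun r hr => (ha r hr).le
    rw [setIntegral_const, measureReal_def, Real.volume_Icc,
      ENNReal.toReal_ofReal (by linarith), smul_eq_mul] at h1
    linarith
  have hlen2 : e * (sp - sm) ≤ η / 40 := by
    have h1 : (sp - sm) * z ≤ 11 := by
      have : (sp - sm) * z * Real.pi ≤ 32 / 3 * Real.pi := by linarith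
      have := le_of_mul_le_mul_right this hπ
      linarith
    calc e * (sp - sm) = η / 440 * ((sp - sm) * z) := by rw [he]; ring
      _ ≤ η / 440 * 11 := by gcongr
      _ = η / 40 := by ring
  -- continuity of u
  have huc : ContinuousOn u (Ioo x0 x1) := by
    refine hac.div (by fun_prop) fun s hs => ?_
    have := hR s hs
    positivity
  have hψc : ContinuousOn ψ (Ioo x0 x1) := by
    refine (huc.add (continuousOn_const.div huc.sqrt fun s hs => ?_)).sub continuousOn_const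
    exact (Real.sqrt_pos.2 (hupos s hs)).ne'
  -- integral of |u - 1| over the middle
  have hmidint : (∫ r in Icc sm sp, |u r - 1|) ≤ η / 20 := by
    have hψi : IntegrableOn ψ (Icc sm sp) := (hψc.mono hsubm).integrableOn_Icc
    have h1 : (∫ r in Icc sm sp, |u r - 1|) ≤ ∫ r in Icc sm sp, (e + (1 + 1 / e) * ψ r) := by
      refine setIntegral_mono_on ?_ ?_ measurableSet_Icc
        fun r hr => B6_abs (u r) e (hupos r (hsubm hr)) he0
      · exact (((huc.mono hsubm).sub continuousOn_const).abs).integrableOn_Icc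
      · exact (integrableOn_const (by simp)).add (hψi.const_mul _)
    have h2 : (∫ r in Icc sm sp, (e + (1 + 1 / e) * ψ r)) =
        e * (sp - sm) + (1 + 1 / e) * ∫ r in Icc sm sp, ψ r := by
      have ic : IntegrableOn (fun _ : ℝ => e) (Icc sm sp) := integrableOn_const (by simp)
      rw [integral_add ic (hψi.const_mul _), integral_const_mul,
        setIntegral_const, measureReal_def, Real.volume_Icc,
        ENNReal.toReal_ofReal (by linarith), smul_eq_mul, mul_comm e]
    have h3 : (Real.pi * z / 8) * (∫ r in Icc sm sp, ψ r) ≤ δ := by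
      rw [← integral_const_mul]
      have h4 : (∫ r in Icc sm sp, Real.pi * z / 8 * ψ r) ≤ ∫ r in Icc sm sp, a r * ψ r := by
        refine setIntegral_mono_on (hψi.const_mul _) (hDi'.mono_set hsubm) measurableSet_Icc
          fun r hr => ?_
        have := hψ0 r (hsubm hr)
        have := hmid r hr
        gcongr
      have h5 : (∫ r in Icc sm sp, a r * ψ r) ≤ ∫ r in Ioo x0 x1, a r * ψ r := by
        refine setIntegral_mono_set hDi' ?_ (ae_of_all _ hsubm)
        rw [EventuallyLE, ae_restrict_iff' measurableSet_Ioo]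
        exact Eventually.of_forall fun r hr => mul_nonneg (ha r hr).le (hψ0 r hr)
      linarith
    have h6 : (1 + 1 / e) * (∫ r in Icc sm sp, ψ r) ≤ η / 40 := by
      have h7 : δ ≤ η / 40 * (Real.pi * z / 8) / (1 + 1 / e) := min_le_right _ _
      have h8 : 0 < 1 + 1 / e := by positivity
      rw [le_div_iff₀ h8] at h7
      have h9 : 0 < Real.pi * z / 8 := by positivity
      have h10 : (Real.pi * z / 8) * ((1 + 1 / e) * (∫ r in Icc sm sp, ψ r)) ≤
          (Real.pi * z / 8) * (η / 40) := by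
        calc _ = (Real.pi * z / 8) * (∫ r in Icc sm sp, ψ r) * (1 + 1 / e) := by ring
          _ ≤ δ * (1 + 1 / e) := by gcongr
          _ ≤ _ := by linarith
      exact le_of_mul_le_mul_left h10 h9
    linarith
  -- s - ξ s nearly constant in the middle
  have hconst : ∀ s ∈ Icc sm sp, |(sp - ξ sp) - (s - ξ s)| ≤ η / 20 := by
    intro s hs
    have hsub2 : Icc s sp ⊆ Ioo x0 x1 := fun r hr => hsubm ⟨hs.1.trans hr.1, hr.2⟩
    have h1 : (∫ r in s..sp, (1 - u r)) = (sp - ξ sp) - (s - ξ s) := by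
      refine intervalIntegral.integral_eq_sub_of_hasDerivAt (f := fun r => r - ξ r) ?_ ?_
      · intro r hr
        rw [uIcc_of_le hs.2] at hr
        exact (hasDerivAt_id r).sub (hder' r (hsub2 hr))
      · refine ContinuousOn.intervalIntegrable ?_
        rw [uIcc_of_le hs.2]
        exact continuousOn_const.sub (huc.mono hsub2)
    rw [← h1]
    have h2 : |∫ r in s..sp, (1 - u r)| ≤ ∫ r in s..sp, |1 - u r| :=
      intervalIntegral.abs_integral_le_integral_abs hs.2
    have h3 : (∫ r in s..sp, |1 - u r|) ≤ ∫ r in Icc sm sp, |u r - 1| := by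
      rw [intervalIntegral.integral_of_le hs.2]
      have h4 : (∫ r in Ioc s sp, |1 - u r|) = ∫ r in Ioc s sp, |u r - 1| := by
        refine setIntegral_congr_fun measurableSet_Ioc fun r _ => ?_
        exact abs_sub_comm _ _
      rw [h4]
      refine setIntegral_mono_set ?_ (ae_of_all _ fun r => abs_nonneg _) (ae_of_all _ ?_)
      · exact (((huc.mono hsubm).sub continuousOn_const).abs).integrableOn_Icc
      · intro r hr
        exact ⟨hs.1.trans hr.1.le, hr.2⟩
    linarith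
  -- (c) tails
  have htp : x1 - sp ≤ 64 * z := by
    have hL : 0 < x1 - sp := by linarith [hsp.2]
    have h1 : ∀ r ∈ Ico sp ((sp + x1) / 2), Real.pi * z / 8 ≤ a r := by
      intro r hr
      have hθ : (r - sp) / (x1 - sp) ∈ Icc (0 : ℝ) 1 :=
        ⟨div_nonneg (by linarith [hr.1]) hL.le, (div_le_one hL).2 (by linarith [hr.2])⟩
      have h1 := hcone sp (Ioo_subset_Icc_self hsp) x1 ⟨hx.le, le_rfl⟩ _ hθ
      have e1 : (1 - (r - sp) / (x1 - sp)) * sp + (r - sp) / (x1 - sp) * x1 = r := by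
        field_simp; ring
      rw [e1] at h1
      have h2 : (r - sp) / (x1 - sp) ≤ 1 / 2 := by rw [div_le_iff₀ hL]; linarith [hr.2]
      have h3 : (1 / 4 : ℝ) ≤ (1 - (r - sp) / (x1 - sp)) ^ 2 := by nlinarith
      have h4 : 1 / 4 * (Real.pi * z / 2) ≤ (1 - (r - sp) / (x1 - sp)) ^ 2 * a sp := by
        gcongr
      linarith
    have hsub3 : Ico sp ((sp + x1) / 2) ⊆ Ico sp x1 := fun r hr => ⟨hr.1, by linarith [hr.2]⟩
    have hsub4 : Ico sp x1 ⊆ Ioo x0 x1 := fun r hr => ⟨hsp.1.trans_le hr.1, hr.2⟩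
    have h5 : (∫ r in Ico sp ((sp + x1) / 2), Real.pi * z / 8) ≤ ∫ r in Ico sp ((sp + x1) / 2), a r :=
      setIntegral_mono_on (integrableOn_const (by simp)) (hai.mono_set (hsub3.trans hsub4))
        measurableSet_Ico h1
    have h6 : (∫ r in Ico sp ((sp + x1) / 2), a r) ≤ ∫ r in Ico sp x1, a r := by
      refine setIntegral_mono_set (hai.mono_set hsub4) ?_ (ae_of_all _ hsub3)
      rw [EventuallyLE, ae_restrict_iff' measurableSet_Ico]
      exact Eventually.of_forall fun r hr => (ha r (hsub4 hr)).le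
    rw [B6_tail hai htot hM sp hsp] at h6
    rw [setIntegral_const, measureReal_def, Real.volume_Ico,
      ENNReal.toReal_ofReal (by linarith), smul_eq_mul] at h5
    have h7 : 2 * Real.pi / 3 - Real.pi * (ξ sp - ξ sp ^ 3 / 3) ≤ Real.pi * (4 * z ^ 2) := by
      have h8 : 2 / 3 - (ξ sp - ξ sp ^ 3 / 3) ≤ 4 * z ^ 2 := by
        have h9 : 2 / 3 - (ξ sp - ξ sp ^ 3 / 3) = (1 - ξ sp) ^ 2 * (2 + ξ sp) / 3 := by ring
        have h10 : (1 - ξ sp) ^ 2 ≤ (2 * z) ^ 2 := by
          have : 0 ≤ 1 - ξ sp := by linarith [hξp.2]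
          gcongr; linarith [hξp.1]
        have h11 : (2 + ξ sp) / 3 ≤ 1 := by linarith [hξp.2]
        have h12 : 0 ≤ (2 + ξ sp) / 3 := by linarith [hξp.1]
        calc _ = (1 - ξ sp) ^ 2 * ((2 + ξ sp) / 3) := by rw [h9]; ring
          _ ≤ (2 * z) ^ 2 * 1 := by gcongr
          _ = _ := by ring
      have := mul_le_mul_of_nonneg_left h8 hπ.le
      linarith
    have h13 : ((x1 - sp) * z) * Real.pi ≤ (64 * z * z) * Real.pi := by nlinarith
    have h14 := le_of_mul_le_mul_right h13 hπ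
    exact le_of_mul_le_mul_right h14 hz0
  have htm : sm - x0 ≤ 64 * z := by
    have hL : 0 < sm - x0 := by linarith [hsm.1]
    have h1 : ∀ r ∈ Ioo ((sm + x0) / 2) sm, Real.pi * z / 8 ≤ a r := by
      intro r hr
      have hθ : (sm - r) / (sm - x0) ∈ Icc (0 : ℝ) 1 :=
        ⟨div_nonneg (by linarith [hr.2]) hL.le, (div_le_one hL).2 (by linarith [hr.1])⟩
      have h1 := hcone sm (Ioo_subset_Icc_self hsm) x0 ⟨le_rfl, hx.le⟩ _ hθ
      have e1 : (1 - (sm - r) / (sm - x0)) * sm + (sm - r) / (sm - x0) * x0 = r := by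
        field_simp; ring
      rw [e1] at h1
      have h2 : (sm - r) / (sm - x0) ≤ 1 / 2 := by rw [div_le_iff₀ hL]; linarith [hr.1]
      have h3 : (1 / 4 : ℝ) ≤ (1 - (sm - r) / (sm - x0)) ^ 2 := by nlinarith
      have h4 : 1 / 4 * (Real.pi * z / 2) ≤ (1 - (sm - r) / (sm - x0)) ^ 2 * a sm := by
        gcongr
      linarith
    have hsub3 : Ioo ((sm + x0) / 2) sm ⊆ Ioo x0 sm := fun r hr => ⟨by linarith [hr.1], hr.2⟩
    have hsub4 : Ioo x0 sm ⊆ Ioo x0 x1 := fun r hr => ⟨hr.1, hr.2.trans hsm.2⟩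
    have h5 : (∫ r in Ioo ((sm + x0) / 2) sm, Real.pi * z / 8) ≤ ∫ r in Ioo ((sm + x0) / 2) sm, a r :=
      setIntegral_mono_on (integrableOn_const (by simp)) (hai.mono_set (hsub3.trans hsub4))
        measurableSet_Ioo h1
    have h6 : (∫ r in Ioo ((sm + x0) / 2) sm, a r) ≤ ∫ r in Ioo x0 sm, a r := by
      refine setIntegral_mono_set (hai.mono_set hsub4) ?_ (ae_of_all _ hsub3)
      rw [EventuallyLE, ae_restrict_iff' measurableSet_Ioo]
      exact Eventually.of_forall fun r hr => (ha r (hsub4 hr)).le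
    rw [hM sm hsm] at h6
    rw [setIntegral_const, measureReal_def, Real.volume_Ioo,
      ENNReal.toReal_ofReal (by linarith), smul_eq_mul] at h5
    have h7 : Real.pi * (ξ sm - ξ sm ^ 3 / 3) + 2 * Real.pi / 3 ≤ Real.pi * (4 * z ^ 2) := by
      have h8 : (ξ sm - ξ sm ^ 3 / 3) + 2 / 3 ≤ 4 * z ^ 2 := by
        have h9 : (ξ sm - ξ sm ^ 3 / 3) + 2 / 3 = (1 + ξ sm) ^ 2 * (2 - ξ sm) / 3 := by ring
        have h10 : (1 + ξ sm) ^ 2 ≤ (2 * z) ^ 2 := by
          have : 0 ≤ 1 + ξ sm := by linarith [hξm.1]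
          gcongr; linarith [hξm.2]
        have h11 : (2 - ξ sm) / 3 ≤ 1 := by linarith [hξm.1]
        have h12 : 0 ≤ (2 - ξ sm) / 3 := by linarith [hξm.2]
        calc _ = (1 + ξ sm) ^ 2 * ((2 - ξ sm) / 3) := by rw [h9]; ring
          _ ≤ (2 * z) ^ 2 * 1 := by gcongr
          _ = _ := by ring
      have := mul_le_mul_of_nonneg_left h8 hπ.le
      linarith
    have h13 : ((sm - x0) * z) * Real.pi ≤ (64 * z * z) * Real.pi := by nlinarith
    have h14 := le_of_mul_le_mul_right h13 hπ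
    exact le_of_mul_le_mul_right h14 hz0
  -- (d) everywhere
  set t0 := sp - ξ sp with ht0
  have hall : ∀ s ∈ Ioo x0 x1, |s - ξ s - t0| ≤ 66 * z + η / 20 := by
    intro s hs
    have hξs := hξmem s hs
    rcases lt_or_ge s sm with h | h
    · have h1 := hconst sm ⟨le_rfl, hsmp.le⟩
      have h2 : ξ s ≤ ξ sm := hmono.monotoneOn hs hsm h.le
      have h3 := abs_le.1 h1
      rw [abs_le]
      constructor <;> nlinarith [hs.1, hξs.1, hξm.2, h3.1, h3.2]
    · rcases le_or_gt s sp with h' | h'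
      · have h1 := hconst s ⟨h, h'⟩
        rw [abs_sub_comm] at h1
        have : 0 < z := hz0
        linarith
      · have h2 : ξ sp ≤ ξ s := hmono.monotoneOn hsp hs h'.le
        rw [abs_le]
        constructor <;> nlinarith [hs.2, hξs.2, hξp.1]
  have hξa : (∫ s in Ioo x0 x1, ξ s * a s) = 0 := by
    have h1 : (∫ w in ξ '' Ioo x0 x1, w * (Real.pi * (1 - w ^ 2))) =
        ∫ s in Ioo x0 x1, |u s| • (ξ s * (Real.pi * (1 - ξ s ^ 2))) :=
      integral_image_eq_integral_abs_deriv_smul measurableSet_Ioo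
        (fun s hs => (hder' s hs).hasDerivWithinAt) hmono.injOn _
    have h2 : (∫ s in Ioo x0 x1, |u s| • (ξ s * (Real.pi * (1 - ξ s ^ 2)))) =
        ∫ s in Ioo x0 x1, ξ s * a s := by
      refine setIntegral_congr_fun measurableSet_Ioo fun s hs => ?_
      simp only [smul_eq_mul]
      rw [abs_of_pos (hupos s hs), hau s hs]; ring
    rw [← h2, ← h1, himg, ← integral_Ioc_eq_integral_Ioo,
      ← intervalIntegral.integral_of_le (by norm_num)]
    have h3 : ∀ w : ℝ, w * (Real.pi * (1 - w ^ 2)) = Real.pi * w - Real.pi * w ^ 3 := fun w => by ring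
    simp_rw [h3]
    rw [intervalIntegral.integral_sub (Continuous.intervalIntegrable (by fun_prop) _ _)
        (Continuous.intervalIntegrable (by fun_prop) _ _),
      intervalIntegral.integral_const_mul, intervalIntegral.integral_const_mul, integral_id,
      integral_pow]
    norm_num
  have ht0b : |t0| ≤ 66 * z + η / 20 := by
    have hbd : ∀ s ∈ Ioo x0 x1, |s| ≤ |x0| + |x1| := by
      intro s hs
      rw [abs_le]
      constructor
      · linarith [hs.1, neg_abs_le x0, abs_nonneg x1]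
      · linarith [hs.2, le_abs_self x1, abs_nonneg x0]
    have hI : ∀ (g : ℝ → ℝ) (B : ℝ), ContinuousOn g (Ioo x0 x1) → (∀ s ∈ Ioo x0 x1, |g s| ≤ B) →
        IntegrableOn (fun s => g s * a s) (Ioo x0 x1) := by
      intro g B hg hB
      refine Integrable.bdd_mul (c := B) hai (hg.aestronglyMeasurable measurableSet_Ioo) ?_
      rw [ae_restrict_iff' measurableSet_Ioo]
      exact Eventually.of_forall fun s hs => by rw [Real.norm_eq_abs]; exact hB s hs
    have i1 := hI (fun s => s) _ continuousOn_id hbd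
    have i2 := hI ξ 1 hξc (fun s hs => by
      have := hξmem s hs
      exact abs_le.2 ⟨this.1.le, this.2.le⟩)
    have h1 : (∫ s in Ioo x0 x1, (s - ξ s - t0) * a s) = -(t0 * (4 * Real.pi / 3)) := by
      have h2 : (∫ s in Ioo x0 x1, (s - ξ s - t0) * a s) =
          ∫ s in Ioo x0 x1, (s * a s - ξ s * a s - t0 * a s) := by
        refine setIntegral_congr_fun measurableSet_Ioo fun s _ => ?_
        ring
      have i12 : IntegrableOn (fun s => s * a s - ξ s * a s) (Ioo x0 x1) := i1.sub i2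
      rw [h2, integral_sub i12 (hai.const_mul _), integral_sub i1 i2, integral_const_mul, hcen,
        hξa, htot]
      ring
    have h3 : ‖∫ s in Ioo x0 x1, (s - ξ s - t0) * a s‖ ≤
        ∫ s in Ioo x0 x1, (66 * z + η / 20) * a s := by
      refine norm_integral_le_of_norm_le (hai.const_mul _) ?_
      rw [ae_restrict_iff' measurableSet_Ioo]
      refine Eventually.of_forall fun s hs => ?_
      rw [norm_mul, Real.norm_eq_abs, Real.norm_eq_abs, abs_of_pos (ha s hs)]
      have := hall s hs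
      have := ha s hs
      gcongr
    rw [h1, integral_const_mul, htot, Real.norm_eq_abs, abs_neg, abs_mul,
      abs_of_pos (by positivity : 0 < 4 * Real.pi / 3)] at h3
    exact le_of_mul_le_mul_right h3 (by positivity)
  have h20 := abs_le.1 ht0b
  have h21 := abs_le.1 (hconst sm ⟨le_rfl, hsmp.le⟩)
  constructor
  · rw [abs_le]
    constructor <;> nlinarith [hsp.2, hξp.1, hξp.2, h20.1, h20.2]
  · rw [abs_le]
    constructor <;> nlinarith [hsm.1, hξm.1, hξm.2, h20.1, h20.2, h21.1, h21.2]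

end Pool.Agent.LV
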