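import Pool.Agent.Lib_helper23.LV.Defs
import Pool.Agent.Lib_helper23.LV.B5
import Pool.Agent.Lib_helper23.LV.B6

set_option autoImplicit false

open MeasureTheory Set Filter Topology
open scoped RealInnerProductSpace Pointwise

namespace Pool.Agent.LV

noncomputable section

/-- coordinates with respect to an orthonormal basis -/
def B7_map (b : OrthonormalBasis (Fin 3) ℝ E) : E ≃ₗ[ℝ] ((ℝ × ℝ) × ℝ) where
  toFun x := ((b.repr x 0, b.repr x 1), b.repr x 2)
  invFun q := b.repr.symm !₂[q.1.1, q.1.2, q.2]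
  map_add' x y := by simp
  map_smul' c x := by simp
  left_inv x := by
    apply b.repr.injective
    rw [LinearIsometryEquiv.apply_symm_apply]
    ext i
    fin_cases i <;> simp
  right_inv q := by simp

theorem B7_map_apply (b : OrthonormalBasis (Fin 3) ℝ E) (x : E) :
    B7_map b x = ((b.repr x 0, b.repr x 1), b.repr x 2) := rfl

theorem B7_mp (b : OrthonormalBasis (Fin 3) ℝ E) :
    MeasurePreserving (B7_map b) volume volume := by
  have h1 : MeasurePreserving b.repr volume volume := b.measurePreserving_repr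
  have h2 : MeasurePreserving (@WithLp.ofLp 2 (Fin 3 → ℝ)) volume volume :=
    PiLp.volume_preserving_ofLp (Fin 3)
  have h3 : MeasurePreserving (MeasurableEquiv.piFinSuccAbove (fun _ : Fin 3 => ℝ) (Fin.last 2))
      volume volume := volume_preserving_piFinSuccAbove (fun _ : Fin 3 => ℝ) (Fin.last 2)
  have h4 : MeasurePreserving (Prod.swap : ℝ × (Fin 2 → ℝ) → (Fin 2 → ℝ) × ℝ) volume volume :=
    Measure.measurePreserving_swap
  have h5 : MeasurePreserving (Prod.map (@MeasurableEquiv.finTwoArrow ℝ _) (id : ℝ → ℝ))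
      volume volume :=
    (volume_preserving_finTwoArrow ℝ).prod (MeasurePreserving.id volume)
  have h := h5.comp (h4.comp (h3.comp (h2.comp h1)))
  convert h using 1
  funext x
  rfl

theorem B7_cont (b : OrthonormalBasis (Fin 3) ℝ E) : Continuous (B7_map b) :=
  LinearMap.continuous_of_finiteDimensional (B7_map b).toLinearMap

theorem B7_homeo (b : OrthonormalBasis (Fin 3) ℝ E) : MeasurableEmbedding (B7_map b) := by
  have h : Topology.IsClosedEmbedding (B7_map b) :=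
    (B7_map b).toContinuousLinearEquiv.toHomeomorph.isClosedEmbedding
  exact h.measurableEmbedding

theorem B7_vol (b : OrthonormalBasis (Fin 3) ℝ E) (K : Set E) :
    volume (B7_map b '' K) = volume K := by
  have h := (B7_mp b).measure_preimage_emb (B7_homeo b) (B7_map b '' K)
  rw [preimage_image_eq _ (B7_map b).injective] at h
  exact h.symm

theorem B7_ball (b : OrthonormalBasis (Fin 3) ℝ E) :
    B7_map b '' (Metric.closedBall (0 : E) 1) = ball3 := by
  ext q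
  constructor
  · rintro ⟨x, hx, rfl⟩
    rw [mem_closedBall_zero_iff] at hx
    have h := b.repr.norm_map x
    rw [EuclideanSpace.norm_eq, Fin.sum_univ_three] at h
    simp only [Real.norm_eq_abs, sq_abs] at h
    show (b.repr x 0) ^ 2 + (b.repr x 1) ^ 2 + (b.repr x 2) ^ 2 ≤ 1
    have h0 : 0 ≤ (b.repr x 0) ^ 2 + (b.repr x 1) ^ 2 + (b.repr x 2) ^ 2 := by positivity
    have := Real.sq_sqrt h0
    rw [h] at this
    nlinarith [norm_nonneg x]
  · intro hq
    refine ⟨(B7_map b).symm q, ?_, (B7_map b).apply_symm_apply q⟩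
    rw [mem_closedBall_zero_iff]
    have h := b.repr.norm_map ((B7_map b).symm q)
    have e : b.repr ((B7_map b).symm q) = !₂[q.1.1, q.1.2, q.2] := by
      show b.repr (b.repr.symm !₂[q.1.1, q.1.2, q.2]) = _
      rw [LinearIsometryEquiv.apply_symm_apply]
    rw [e, EuclideanSpace.norm_eq, Fin.sum_univ_three] at h
    simp only [Real.norm_eq_abs, sq_abs] at h
    rw [← h]
    have hq' : q.1.1 ^ 2 + q.1.2 ^ 2 + q.2 ^ 2 ≤ 1 := hq
    exact Real.sqrt_le_one.2 (by simpa using hq')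

theorem B7_thick (b : OrthonormalBasis (Fin 3) ℝ E) (K : Set E) (hK : IsCompact K) (ε : ℝ)
    (hε : 0 < ε) : B7_map b '' (Metric.cthickening ε K) = B7_map b '' K + ε • ball3 := by
  rw [← hK.add_closedBall_zero hε.le, ← B7_ball b, ← image_smul_set, ← image_add]
  congr 2
  rw [smul_unitClosedBall, Real.norm_eq_abs, abs_of_pos hε]

theorem B7_basis (u : E) (hu : ‖u‖ = 1) : ∃ b : OrthonormalBasis (Fin 3) ℝ E, b 2 = u := by
  have ho : Orthonormal ℝ (({2} : Set (Fin 3)).domRestrict (fun _ : Fin 3 => u)) := by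
    constructor
    · intro i
      exact hu
    · intro i j hij
      exact absurd (Subsingleton.elim i j) hij
  obtain ⟨b, hb⟩ := ho.exists_orthonormalBasis_extension_of_card_eq (by simp)
  exact ⟨b, hb 2 (mem_singleton 2)⟩

theorem B7_inner (b : OrthonormalBasis (Fin 3) ℝ E) (x : E) : (B7_map b x).2 = ⟪b 2, x⟫ := by
  show b.repr x 2 = ⟪b 2, x⟫
  rw [OrthonormalBasis.repr_apply_apply]

theorem B7_centroid (b : OrthonormalBasis (Fin 3) ℝ E) (K : Set E) (hK : IsCompact K)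
    (h0 : (∫ x in K, x) = 0) : (∫ q in B7_map b '' K, q.2) = 0 := by
  have h1 := (B7_mp b).setIntegral_image_emb (B7_homeo b) (fun q : (ℝ × ℝ) × ℝ => q.2) K
  rw [h1]
  have h2 : ∀ x : E, (B7_map b x).2 = innerSL ℝ (b 2) x := fun x => by
    rw [B7_inner]; rfl
  simp_rw [h2]
  rw [ContinuousLinearMap.integral_comp_comm, h0, map_zero]
  exact continuous_id.continuousOn.integrableOn_compact hK

theorem B7_fubini (S : Set ((ℝ × ℝ) × ℝ)) (hS : IsCompact S) (x0 x1 : ℝ)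
    (hx : ∀ s, (sl S s).Nonempty ↔ s ∈ Icc x0 x1) :
    (∫ s in Ioo x0 x1, s * ars S s) = ∫ q in S, q.2 := by
  have hi : Integrable (S.indicator (fun q : (ℝ × ℝ) × ℝ => q.2)) volume := by
    rw [integrable_indicator_iff hS.measurableSet]
    exact continuous_snd.continuousOn.integrableOn_compact hS
  have h1 : (∫ q in S, q.2) = ∫ q, S.indicator (fun q : (ℝ × ℝ) × ℝ => q.2) q :=
    (integral_indicator hS.measurableSet).symm
  have h2 : ∀ s : ℝ, (∫ p : ℝ × ℝ, S.indicator (fun q : (ℝ × ℝ) × ℝ => q.2) (p, s)) =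
      s * ars S s := by
    intro s
    have hm : MeasurableSet (sl S s) := by
      have : sl S s = (fun p : ℝ × ℝ => (p, s)) ⁻¹' S := rfl
      rw [this]
      exact hS.measurableSet.preimage (measurable_prodMk_right)
    have h3 : (fun p : ℝ × ℝ => S.indicator (fun q : (ℝ × ℝ) × ℝ => q.2) (p, s)) =
        (sl S s).indicator (fun _ => s) := by
      funext p
      by_cases h : (p, s) ∈ S
      · rw [indicator_of_mem h, indicator_of_mem (show p ∈ sl S s from h)]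
      · rw [indicator_of_notMem h, indicator_of_notMem (show p ∉ sl S s from h)]
    rw [h3, integral_indicator hm, setIntegral_const, smul_eq_mul, mul_comm]
    rfl
  rw [h1, Measure.volume_eq_prod, integral_prod_symm _ hi]
  simp_rw [h2]
  rw [← integral_Icc_eq_integral_Ioo, ← integral_indicator measurableSet_Icc]
  congr 1
  funext s
  by_cases h : s ∈ Icc x0 x1
  · rw [indicator_of_mem h]
  · rw [indicator_of_notMem h]
    have : sl S s = ∅ := by
      rw [← not_nonempty_iff_eq_empty, hx s]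
      exact h
    simp [ars, this]

theorem B7_dir (η δ : ℝ)
    (hδ : ∀ (x0 x1 : ℝ) (a ξ : ℝ → ℝ), x0 < x1 →
    (∀ s ∈ Ioo x0 x1, 0 < a s) → ContinuousOn a (Ioo x0 x1) → IntegrableOn a (Ioo x0 x1) →
    (∫ s in Ioo x0 x1, a s) = 4 * Real.pi / 3 →
    (∀ s ∈ Icc x0 x1, ∀ s' ∈ Icc x0 x1, ∀ θ ∈ Icc (0 : ℝ) 1,
      (1 - θ) ^ 2 * a s ≤ a ((1 - θ) * s + θ * s')) →
    (∫ s in Ioo x0 x1, s * a s) = 0 →
    StrictMonoOn ξ (Ioo x0 x1) → ξ '' (Ioo x0 x1) = Ioo (-1) 1 →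
    (∀ s ∈ Ioo x0 x1, HasDerivAt ξ (a s / (Real.pi * (1 - ξ s ^ 2))) s) →
    (∀ s ∈ Ioo x0 x1, (∫ r in Ioo x0 s, a r) =
      Real.pi * (ξ s - ξ s ^ 3 / 3) + 2 * Real.pi / 3) →
    IntegrableOn (fun s => a s * (a s / (Real.pi * (1 - ξ s ^ 2)) +
      2 / Real.sqrt (a s / (Real.pi * (1 - ξ s ^ 2))) - 3)) (Ioo x0 x1) →
    (∫ s in Ioo x0 x1, a s * (a s / (Real.pi * (1 - ξ s ^ 2)) +
      2 / Real.sqrt (a s / (Real.pi * (1 - ξ s ^ 2))) - 3)) ≤ δ →
    |x1 - 1| ≤ η ∧ |x0 + 1| ≤ η)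
    (K : Set E) (hK : IsCompact K) (hc : Convex ℝ K)
    (hv : (volume K).toReal = 4 * Real.pi / 3) (h0 : (∫ x in K, x) = 0) (A : ℝ)
    (hA : Tendsto (fun ε : ℝ =>
      ((volume (Metric.cthickening ε K)).toReal - 4 * Real.pi / 3) / ε)
      (𝓝[>] (0 : ℝ)) (𝓝 A)) (hA2 : A ≤ 4 * Real.pi + δ) (u : E) (hu : ‖u‖ = 1) :
    ∃ x1 : ℝ, |x1 - 1| ≤ η ∧ (∀ x ∈ K, ⟪u, x⟫ ≤ x1) ∧ ∃ k ∈ K, ⟪u, k⟫ = x1 := by
  obtain ⟨b, rfl⟩ := B7_basis u hu
  have hK' : IsCompact (B7_map b '' K) := hK.image (B7_cont b)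
  have hc' : Convex ℝ (B7_map b '' K) := hc.linear_image (B7_map b).toLinearMap
  obtain ⟨x0, x1, ξ, hx, hn, ha, hac, hai, haI, hcone, hξ, hξi, hξd, hξF, hint, hvol⟩ :=
    B5 (B7_map b '' K) hK' hc' (by rw [B7_vol]; exact hv)
  have hD : (∫ s in Ioo x0 x1, ars (B7_map b '' K) s *
        (ars (B7_map b '' K) s / (Real.pi * (1 - ξ s ^ 2)) +
          2 / Real.sqrt (ars (B7_map b '' K) s / (Real.pi * (1 - ξ s ^ 2))) - 3)) ≤ δ := by
    have h1 : 4 * Real.pi + (∫ s in Ioo x0 x1, ars (B7_map b '' K) s *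
        (ars (B7_map b '' K) s / (Real.pi * (1 - ξ s ^ 2)) +
          2 / Real.sqrt (ars (B7_map b '' K) s / (Real.pi * (1 - ξ s ^ 2))) - 3)) ≤ A := by
      refine ge_of_tendsto hA ?_
      filter_upwards [self_mem_nhdsWithin] with ε hε
      have hε' : (0 : ℝ) < ε := hε
      have h2 := hvol ε hε'
      rw [← B7_thick b K hK ε hε', B7_vol] at h2
      rw [le_div_iff₀ hε']
      linarith
    linarith
  have hcen : (∫ s in Ioo x0 x1, s * ars (B7_map b '' K) s) = 0 := by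
    rw [B7_fubini _ hK' x0 x1 hn]
    exact B7_centroid b K hK h0
  obtain ⟨h1, -⟩ := hδ x0 x1 (ars (B7_map b '' K)) ξ hx ha hac hai haI hcone hcen hξ hξi hξd hξF
    hint hD
  refine ⟨x1, h1, ?_, ?_⟩
  · intro x hxK
    have : (sl (B7_map b '' K) (B7_map b x).2).Nonempty := ⟨(B7_map b x).1, x, hxK, rfl⟩
    have := ((hn _).1 this).2
    rwa [B7_inner] at this
  · obtain ⟨p, k, hk, hkp⟩ := (hn x1).2 ⟨hx.le, le_rfl⟩
    refine ⟨k, hk, ?_⟩
    rw [← B7_inner, hkp]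

/-- **B7** (near-optimal convex bodies are close to the unit ball). -/
theorem B7 (η : ℝ) (hη : 0 < η) : ∃ δ : ℝ, 0 < δ ∧ ∀ K : Set E, IsCompact K → Convex ℝ K →
    (volume K).toReal = 4 * Real.pi / 3 → (∫ x in K, x) = 0 → ∀ A : ℝ,
    Tendsto (fun ε : ℝ => ((volume (Metric.cthickening ε K)).toReal - 4 * Real.pi / 3) / ε)
      (𝓝[>] (0 : ℝ)) (𝓝 A) → A ≤ 4 * Real.pi + δ →
    Metric.closedBall (0 : E) (1 - η) ⊆ K ∧ K ⊆ Metric.closedBall (0 : E) (1 + η) := by
  obtain ⟨δ, hδ0, hδ⟩ := B6 η hη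
  refine ⟨δ, hδ0, ?_⟩
  intro K hK hc hv h0 A hA hA2
  have key : ∀ u : E, ‖u‖ = 1 →
      ∃ x1 : ℝ, |x1 - 1| ≤ η ∧ (∀ x ∈ K, ⟪u, x⟫ ≤ x1) ∧ ∃ k ∈ K, ⟪u, k⟫ = x1 :=
    fun u hu => B7_dir η δ hδ K hK hc hv h0 A hA hA2 u hu
  have hn : ∀ y : E, y ≠ 0 → ‖(‖y‖⁻¹ • y)‖ = 1 := by
    intro y hy
    rw [norm_smul, norm_inv, norm_norm, inv_mul_cancel₀ (norm_ne_zero_iff.2 hy)]
  constructor
  · intro y hy
    rw [mem_closedBall_zero_iff] at hy
    by_contra hyK
    obtain ⟨f, s, hf1, hf2⟩ := geometric_hahn_banach_closed_point hc hK.isClosed hyK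
    obtain ⟨v, rfl⟩ := (InnerProductSpace.toDual ℝ E).surjective f
    simp only [InnerProductSpace.toDual_apply_apply] at hf1 hf2
    have hv0 : v ≠ 0 := by
      rintro rfl
      obtain ⟨x1, -, -, k, hk, -⟩ := key (EuclideanSpace.single 0 1) (by simp)
      have := hf1 k hk
      simp only [inner_zero_left] at this hf2
      linarith
    obtain ⟨x1, hx1, -, k, hk, hk1⟩ := key _ (hn v hv0)
    have h1 := hf1 k hk
    have hvp : 0 < ‖v‖ := norm_pos_iff.2 hv0
    rw [real_inner_smul_left] at hk1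
    have h2 : ⟪v, k⟫ = ‖v‖ * x1 := by
      rw [← hk1, ← mul_assoc, mul_inv_cancel₀ hvp.ne', one_mul]
    have h3 : ⟪v, y⟫ ≤ ‖v‖ * ‖y‖ := real_inner_le_norm v y
    have h4 : 1 - η ≤ x1 := by linarith [(abs_le.1 hx1).1]
    have h5 : ‖v‖ * ‖y‖ ≤ ‖v‖ * (1 - η) := mul_le_mul_of_nonneg_left hy hvp.le
    have h6 : ‖v‖ * (1 - η) ≤ ‖v‖ * x1 := mul_le_mul_of_nonneg_left h4 hvp.le
    linarith
  · intro x hx
    rw [mem_closedBall_zero_iff]
    by_cases hx0 : x = 0
    · subst hx0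
      rw [norm_zero]
      linarith
    · obtain ⟨x1, hx1, hx2, -⟩ := key _ (hn x hx0)
      have h1 := hx2 x hx
      have hxp : 0 < ‖x‖ := norm_pos_iff.2 hx0
      rw [real_inner_smul_left, real_inner_self_eq_norm_sq] at h1
      have h2 : ‖x‖⁻¹ * ‖x‖ ^ 2 = ‖x‖ := by
        rw [pow_two, ← mul_assoc, inv_mul_cancel₀ hxp.ne', one_mul]
      rw [h2] at h1
      linarith [(abs_le.1 hx1).2]

end

end Pool.Agent.LV
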