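import Pool.Agent.Lib_helper23.LV.B7

set_option autoImplicit false

open MeasureTheory Set Filter Topology
open scoped RealInnerProductSpace Pointwise

namespace Pool.Agent.LV

theorem Br_thick (K : Set E) (g : E) (ε : ℝ) :
    Metric.cthickening ε ((fun x => x - g) '' K) = (fun x => x - g) '' Metric.cthickening ε K := by
  have h : (fun x : E => x - g) = (IsometryEquiv.subRight g : E ≃ᵢ E) := rfl
  rw [h]
  ext y
  simp only [Metric.mem_cthickening_iff, mem_image]
  constructor
  · intro hy
    refine ⟨(IsometryEquiv.subRight g).symm y, ?_, by simp⟩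
    have : y = (IsometryEquiv.subRight g) ((IsometryEquiv.subRight g).symm y) := by simp
    rw [this, Metric.infEDist_image (IsometryEquiv.subRight g).isometry] at hy
    exact hy
  · rintro ⟨x, hx, rfl⟩
    rw [Metric.infEDist_image (IsometryEquiv.subRight g).isometry]
    exact hx

theorem Br_vol (K : Set E) (g : E) : volume ((fun x => x - g) '' K) = volume K := by
  have : (fun x : E => x - g) '' K = (fun x => x + g) ⁻¹' K := by
    ext y; constructor
    · rintro ⟨x, hx, rfl⟩; simpa using hx
    · intro hy; exact ⟨y + g, hy, by simp⟩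
  rw [this, measure_preimage_add_right]

/-- near-ball stability without the centroid normalisation -/
theorem Br (δ : ℝ) (hδ : 0 < δ) : ∃ η > 0, ∀ K : Set E, IsCompact K → Convex ℝ K →
    (interior K).Nonempty →
    (volume K).toReal = 4 * Real.pi / 3 → ∀ A : ℝ,
    Filter.Tendsto (fun ε : ℝ => ((volume (Metric.cthickening ε K)).toReal - (volume K).toReal) / ε)
      (𝓝[>] 0) (𝓝 A) → A ≤ 4 * Real.pi + η →
    ∃ x0, Metric.closedBall x0 (1 - δ) ⊆ K ∧ K ⊆ Metric.closedBall x0 (1 + δ) := by
  obtain ⟨η, hη, h⟩ := B7 δ hδ
  refine ⟨η, hη, fun K hK hc _ hv A hA hAη => ?_⟩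
  have hπ := Real.pi_pos
  set g : E := (4 * Real.pi / 3)⁻¹ • ∫ x in K, x with hg
  set K' := (fun x => x - g) '' K with hK'
  have hcont : Continuous (fun x : E => x - g) := by fun_prop
  have hK'c : IsCompact K' := hK.image hcont
  have hK'v : Convex ℝ K' := by
    have : K' = K + {-g} := by
      rw [hK']; ext y; simp [Set.mem_add, sub_eq_add_neg]
    rw [this]
    exact hc.add (convex_singleton _)
  have hvol' : (volume K').toReal = 4 * Real.pi / 3 := by rw [hK', Br_vol, hv]
  have hint : IntegrableOn (fun x : E => x) K := continuous_id.continuousOn.integrableOn_compact hK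
  have hcen : (∫ x in K', x) = 0 := by
    have h1 : (∫ x in K', x) = ∫ x in K, (x - g) := by
      have hmp : MeasurePreserving (fun x : E => x - g) volume volume :=
        measurePreserving_sub_right volume g
      have hemb : MeasurableEmbedding (fun x : E => x - g) :=
        (Homeomorph.subRight g).measurableEmbedding
      rw [hK']
      exact hmp.setIntegral_image_emb hemb (fun x => x) K
    rw [h1, integral_sub hint (integrableOn_const (hs := hK.measure_lt_top.ne))]
    rw [setIntegral_const, measureReal_def, hv, hg, smul_smul, mul_inv_cancel₀ (by positivity),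
      one_smul, sub_self]
  have hA' : Tendsto (fun ε : ℝ => ((volume (Metric.cthickening ε K')).toReal -
      4 * Real.pi / 3) / ε) (𝓝[>] (0 : ℝ)) (𝓝 A) := by
    refine hA.congr fun ε => ?_
    rw [hK', Br_thick, Br_vol, hv]
  obtain ⟨h1, h2⟩ := h K' hK'c hK'v hvol' hcen A hA' hAη
  refine ⟨g, fun x hx => ?_, fun x hx => ?_⟩
  · have : x - g ∈ K' := h1 (by
      rw [Metric.mem_closedBall, dist_zero_right]
      rwa [Metric.mem_closedBall, dist_eq_norm] at hx)
    obtain ⟨z, hz, hzx⟩ := this
    have : z = x := by simpa using hzx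
    rwa [← this]
  · have : x - g ∈ Metric.closedBall (0 : E) (1 + δ) := h2 ⟨x, hx, rfl⟩
    rw [Metric.mem_closedBall, dist_eq_norm]
    rwa [Metric.mem_closedBall, dist_zero_right] at this

end Pool.Agent.LV
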