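import Mathlib

set_option autoImplicit false

/-!
# LargeV (MP_6a769f_gt): basic definitions
-/

open MeasureTheory Set Filter Topology
open scoped RealInnerProductSpace

namespace Pool.Agent.LV

noncomputable section

abbrev E := EuclideanSpace ℝ (Fin 3)

/-- the open unit ball of `E` -/
def Bl : Set E := Metric.ball (0 : E) 1

/-- cross product -/
def cr (x y : E) : E :=
  !₂[x 1 * y 2 - x 2 * y 1, x 2 * y 0 - x 0 * y 2, x 0 * y 1 - x 1 * y 0]

/-! ### Part B : slices of convex bodies -/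

/-- slice at height `s` -/
def sl {X : Type} (K : Set (X × ℝ)) (s : ℝ) : Set X := {p | (p, s) ∈ K}

/-- measure of the slice at height `s` -/
def ars {X : Type} [MeasureSpace X] (K : Set (X × ℝ)) (s : ℝ) : ℝ := (volume (sl K s)).toReal

/-- planar disc of radius `r` -/
def disc (r : ℝ) : Set (ℝ × ℝ) := {p | p.1 ^ 2 + p.2 ^ 2 ≤ r ^ 2}

/-- unit ball in coordinates `(ℝ × ℝ) × ℝ` -/
def ball3 : Set ((ℝ × ℝ) × ℝ) := {q | q.1.1 ^ 2 + q.1.2 ^ 2 + q.2 ^ 2 ≤ 1}

/-! ### Part P : planar triangles -/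

/-- primitive third root of unity -/
def om : ℂ := ⟨-1 / 2, Real.sqrt 3 / 2⟩

/-- its conjugate -/
def omb : ℂ := ⟨-1 / 2, -(Real.sqrt 3 / 2)⟩

/-- centroid -/
def cen (p : Fin 3 → ℂ) : ℂ := (p 0 + p 1 + p 2) / 3

/-- `alpha`, where `p k = c + alpha om^k + beta omb^k` -/
def al (p : Fin 3 → ℂ) : ℂ := (p 0 + omb * p 1 + om * p 2) / 3

/-- `beta` -/
def be (p : Fin 3 → ℂ) : ℂ := (p 0 + om * p 1 + omb * p 2) / 3

/-- the triangle -/
def tri (p : Fin 3 → ℂ) : Set ℂ := convexHull ℝ (range p)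

/-- area of the (positively oriented) triangle -/
def gar (p : Fin 3 → ℂ) : ℝ := 3 * Real.sqrt 3 / 4 * (‖al p‖ ^ 2 - ‖be p‖ ^ 2)

/-- `kappa = 1/(3 sqrt 3)` -/
def kap : ℝ := 1 / (3 * Real.sqrt 3)

/-- mean of `|y - c|^2` -/
def mom (p : Fin 3 → ℂ) : ℝ := (‖al p‖ ^ 2 + ‖be p‖ ^ 2) / 4

/-- shape deviation `q = mom - kap * gar = |beta|^2/2` -/
def qq (p : Fin 3 → ℂ) : ℝ := ‖be p‖ ^ 2 / 2

/-- the regular triangle with circumradius `r` centred at `0` -/
def reg (r : ℝ) : Fin 3 → ℂ := ![(r : ℂ), (r : ℂ) * om, (r : ℂ) * omb]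

/-- solid angle of the centred regular triangle of area `G` in a tangent plane -/
def bb (G : ℝ) : ℝ := 6 * Real.arctan (Real.sqrt ((1 + 4 * kap * G) / 3)) - Real.pi

/-- inverse of `bb` : area of the centred regular triangle with solid angle `s` -/
def aa (s : ℝ) : ℝ := 3 * Real.sqrt 3 / 4 * (3 * Real.tan ((Real.pi + s) / 6) ^ 2 - 1)

/-- `C_m = m * aa (4 pi/m)` (the bound for `m` triangular faces) -/
def Cm (m : ℕ) : ℝ := m * aa (4 * Real.pi / m)

end

end Pool.Agent.LV
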